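import Mathlib

/-!
# Zero patterns of polynomial functions
-/

set_option autoImplicit false
set_option linter.unusedSectionVars false

namespace DQ

open Finset

/-- The number of zero patterns of a family of functions is at most the dimension of a space
containing all products of subfamilies. -/
theorem zero_patterns {Y ι : Type*} [Fintype ι] [DecidableEq ι] (f : ι → Y → ℝ)
    (W : Submodule ℝ (Y → ℝ)) [FiniteDimensional ℝ W] (hW : ∀ I : Finset ι, (∏ i ∈ I, f i) ∈ W)
    (Z : Finset (Finset ι)) (hZ : ∀ z ∈ Z, ∃ y : Y, ∀ i, i ∈ z ↔ f i y = 0) :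
    Z.card ≤ Module.finrank ℝ W := by
  have hli : LinearIndependent ℝ (fun z : {z // z ∈ Z} => (⟨∏ i ∈ z.1ᶜ, f i, hW _⟩ : W)) := by
    rw [linearIndependent_iff']
    intro s c hc
    by_contra hcon
    push Not at hcon
    obtain ⟨z₀, hz₀, hc₀⟩ := hcon
    have hne : (s.filter fun z => c z ≠ 0).Nonempty := ⟨z₀, mem_filter.2 ⟨hz₀, hc₀⟩⟩
    obtain ⟨z, hz, hmax⟩ := Finset.exists_max_image (s.filter fun z => c z ≠ 0)
      (fun z => z.1.card) hne
    rw [mem_filter] at hz
    obtain ⟨y, hy⟩ := hZ z.1 z.2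
    have h1 := congrArg (fun w : W => (w : Y → ℝ) y) hc
    simp only [Submodule.coe_sum, Submodule.coe_smul, Finset.sum_apply, Pi.smul_apply,
      smul_eq_mul, Finset.prod_apply, Submodule.coe_zero, Pi.zero_apply] at h1
    rw [Finset.sum_eq_single_of_mem z hz.1] at h1
    · rcases mul_eq_zero.1 h1 with h2 | h2
      · exact hz.2 h2
      · rw [Finset.prod_eq_zero_iff] at h2
        obtain ⟨i, hi, h3⟩ := h2
        rw [mem_compl] at hi
        exact hi ((hy i).2 h3)
    · intro z' hz' hne'
      by_cases hc' : c z' = 0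
      · rw [hc', zero_mul]
      · rw [mul_eq_zero]
        right
        rw [Finset.prod_eq_zero_iff]
        by_contra hcon2
        push Not at hcon2
        apply hne'
        have hsub : z.1 ⊆ z'.1 := by
          intro i hi
          by_contra hi'
          exact hcon2 i (mem_compl.2 hi') ((hy i).1 hi)
        have hle := hmax z' (mem_filter.2 ⟨hz', hc'⟩)
        exact Subtype.ext (Finset.eq_of_subset_of_card_le hsub hle).symm
  have := hli.fintype_card_le_finrank
  rwa [Fintype.card_coe] at this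

/-- Polynomial functions with degree at most `N` in each variable. -/
noncomputable def Mon (ι : Type*) [Fintype ι] (N : ℕ) : Submodule ℝ ((ι → ℝ) → ℝ) :=
  Submodule.span ℝ (Set.range fun (e : ι → Fin (N + 1)) (y : ι → ℝ) => ∏ i, y i ^ (e i : ℕ))

variable {ι : Type*} [Fintype ι]

instance Mon_fin (N : ℕ) : FiniteDimensional ℝ (Mon ι N) :=
  FiniteDimensional.span_of_finite ℝ (Set.finite_range _)

theorem finrank_Mon [DecidableEq ι] (N : ℕ) :
    Module.finrank ℝ (Mon ι N) ≤ (N + 1) ^ Fintype.card ι := by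
  refine (finrank_range_le_card _).trans ?_
  rw [Fintype.card_fun, Fintype.card_fin]

theorem mono_mem (N : ℕ) (e : ι → ℕ) (he : ∀ i, e i ≤ N) :
    (fun y : ι → ℝ => ∏ i, y i ^ e i) ∈ Mon ι N :=
  Submodule.subset_span ⟨fun i => ⟨e i, Nat.lt_succ_of_le (he i)⟩, rfl⟩

theorem Mon_mono {N M : ℕ} (h : N ≤ M) : Mon ι N ≤ Mon ι M := by
  rw [Mon, Submodule.span_le]
  rintro _ ⟨e, rfl⟩
  exact mono_mem M (fun i => e i) fun i => (Nat.le_of_lt_succ (e i).2).trans h

theorem Mon_mul {N M : ℕ} {f g : (ι → ℝ) → ℝ} (hf : f ∈ Mon ι N) (hg : g ∈ Mon ι M) :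
    f * g ∈ Mon ι (N + M) := by
  have h1 := Submodule.mul_mem_mul hf hg
  rw [Mon, Mon, Submodule.span_mul_span] at h1
  refine (Submodule.span_le.2 ?_) h1
  rintro _ ⟨_, ⟨e, rfl⟩, _, ⟨e', rfl⟩, rfl⟩
  have : ((fun (y : ι → ℝ) => ∏ i, y i ^ (e i : ℕ)) * (fun (y : ι → ℝ) => ∏ i, y i ^ (e' i : ℕ))) =
      fun y : ι → ℝ => ∏ i, y i ^ ((e i : ℕ) + e' i) := by
    funext y
    rw [Pi.mul_apply, ← Finset.prod_mul_distrib]
    exact Finset.prod_congr rfl fun i _ => by rw [pow_add]
  change _ * _ ∈ Mon ι (N + M)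
  rw [this]
  refine mono_mem _ _ fun i => ?_
  have h1 := (e i).2
  have h2 := (e' i).2
  omega

theorem Mon_const (N : ℕ) (c : ℝ) : (fun _ : ι → ℝ => c) ∈ Mon ι N := by
  have h := Submodule.smul_mem (Mon ι N) c (mono_mem N (fun _ : ι => 0) fun _ => Nat.zero_le _)
  convert h using 1
  funext y
  simp

theorem Mon_prod {κ : Type*} (s : Finset κ) (f : κ → (ι → ℝ) → ℝ) (d : ℕ)
    (hf : ∀ k ∈ s, f k ∈ Mon ι d) : (∏ k ∈ s, f k) ∈ Mon ι (d * s.card) := by
  classical
  induction s using Finset.induction_on with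
  | empty =>
    rw [Finset.prod_empty, Finset.card_empty, mul_zero]
    exact Mon_const 0 1
  | insert a s ha ih =>
    rw [Finset.prod_insert ha, Finset.card_insert_of_notMem ha]
    have h1 := Mon_mul (hf a (mem_insert_self a s)) (ih fun k hk => hf k (mem_insert_of_mem hk))
    refine Mon_mono (le_of_eq ?_) h1
    ring

/-- Counting zero patterns of polynomials of degree at most `d` in each variable. -/
theorem zero_patterns_Mon [DecidableEq ι] {κ : Type*} [Fintype κ] [DecidableEq κ]
    (f : κ → (ι → ℝ) → ℝ) (d : ℕ) (hf : ∀ k, f k ∈ Mon ι d)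
    (Z : Finset (Finset κ)) (hZ : ∀ z ∈ Z, ∃ y : ι → ℝ, ∀ k, k ∈ z ↔ f k y = 0) :
    Z.card ≤ (d * Fintype.card κ + 1) ^ Fintype.card ι := by
  refine (zero_patterns f (Mon ι (d * Fintype.card κ)) ?_ Z hZ).trans (finrank_Mon _)
  intro I
  refine Mon_mono (Nat.mul_le_mul_left d ?_) (Mon_prod I f d fun k _ => hf k)
  exact Finset.card_le_univ I

/-- A linear form with no constant term. -/
theorem Mon_linear [DecidableEq ι] (a : ι → ℝ) : (fun y : ι → ℝ => ∑ i, a i * y i) ∈ Mon ι 1 := by
  have h1 : ∀ i : ι, (fun y : ι → ℝ => y i) ∈ Mon ι 1 := by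
    intro i
    have h := mono_mem 1 (fun j : ι => if j = i then 1 else 0) fun j => by
      split_ifs <;> omega
    have e : (fun y : ι → ℝ => ∏ j, y j ^ (if j = i then 1 else 0)) = fun y : ι → ℝ => y i := by
      funext y
      rw [Finset.prod_eq_single_of_mem i (mem_univ i)]
      · simp
      · intro j _ hj
        rw [if_neg hj, pow_zero]
    rwa [e] at h
  have h2 : (fun y : ι → ℝ => ∑ i, a i * y i) = ∑ i, a i • (fun y : ι → ℝ => y i) := by
    funext y
    simp
  rw [h2]
  exact Submodule.sum_mem _ fun i _ => Submodule.smul_mem _ _ (h1 i)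

/-- A product of two distinct variables. -/
theorem Mon_pair [DecidableEq ι] {i j : ι} (hij : i ≠ j) :
    (fun y : ι → ℝ => y i * y j) ∈ Mon ι 1 := by
  have h := mono_mem 1 (fun l : ι => if l = i then 1 else if l = j then 1 else 0) fun l => by
    split_ifs <;> omega
  have e : (fun y : ι → ℝ => ∏ l, y l ^ (if l = i then 1 else if l = j then 1 else 0)) =
      fun y : ι → ℝ => y i * y j := by
    funext y
    have : ∀ l, y l ^ (if l = i then 1 else if l = j then 1 else 0) =
        (if l = i then y i else 1) * (if l = j then y j else 1) := by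
      intro l
      by_cases h1 : l = i
      · subst h1
        simp [hij]
      · by_cases h2 : l = j
        · subst h2
          simp [h1]
        · simp [h1, h2]
    rw [Finset.prod_congr rfl fun l _ => this l, Finset.prod_mul_distrib,
      Finset.prod_ite_eq' univ i, Finset.prod_ite_eq' univ j]
    simp
  rwa [e] at h

end DQ
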