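import Pool.Agent.helper62.DS.Gr
import Pool.Agent.helper62.DQ.ZP

/-!
# Averaging over changes of a random alternating matrix
-/

set_option autoImplicit false
set_option linter.unusedSectionVars false

namespace DQ

open Matrix Finset DS

variable {V : Type*} [Fintype V] [DecidableEq V]

open scoped Classical in
/-- The alternating matrices with a property. -/
noncomputable def cS (P : Matrix V V F → Prop) : Finset (Matrix V V F) :=
  (altSet V).filter fun A => P A

theorem mem_cS (P : Matrix V V F → Prop) (A : Matrix V V F) : A ∈ cS P ↔ IsAlt A ∧ P A := by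
  classical
  rw [cS, mem_filter, mem_altSet]

/-- The number of alternating matrices with a property. -/
noncomputable def cn (P : Matrix V V F → Prop) : ℕ := (cS P).card

open scoped Classical in
/-- The elements with a property. -/
noncomputable def tS {U : Type*} [Fintype U] (P : U → Prop) : Finset U := univ.filter fun u => P u

theorem mem_tS {U : Type*} [Fintype U] (P : U → Prop) (u : U) : u ∈ tS P ↔ P u := by
  classical
  rw [tS, mem_filter]
  exact ⟨fun h => h.2, fun h => ⟨mem_univ _, h⟩⟩

/-- The number of elements with a property. -/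
noncomputable def ct {U : Type*} [Fintype U] (P : U → Prop) : ℕ := (tS P).card

theorem cn_mono {P Q : Matrix V V F → Prop} (h : ∀ A, IsAlt A → P A → Q A) : cn P ≤ cn Q := by
  refine Finset.card_le_card fun A hA => ?_
  rw [mem_cS] at hA ⊢
  exact ⟨hA.1, h A hA.1 hA.2⟩

theorem cn_le_univ (P : Matrix V V F → Prop) : cn P ≤ (altSet V).card := by
  refine Finset.card_le_card fun A hA => ?_
  rw [mem_cS] at hA
  exact (mem_altSet A).2 hA.1

theorem cn_union {ι : Type*} (s : Finset ι) (P : ι → Matrix V V F → Prop) :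
    cn (fun A => ∃ i ∈ s, P i A) ≤ ∑ i ∈ s, cn (P i) := by
  classical
  refine le_trans (Finset.card_le_card (t := s.biUnion fun i => cS (P i)) ?_)
    Finset.card_biUnion_le
  intro A hA
  rw [mem_cS] at hA
  obtain ⟨h1, i, hi, h2⟩ := hA
  rw [mem_biUnion]
  exact ⟨i, hi, (mem_cS _ _).2 ⟨h1, h2⟩⟩

theorem cn_or (P Q : Matrix V V F → Prop) : cn (fun A => P A ∨ Q A) ≤ cn P + cn Q := by
  classical
  refine le_trans (Finset.card_le_card (t := cS P ∪ cS Q) ?_) (Finset.card_union_le _ _)
  intro A hA
  rw [mem_cS] at hA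
  rw [mem_union, mem_cS, mem_cS]
  rcases hA.2 with h | h
  · exact Or.inl ⟨hA.1, h⟩
  · exact Or.inr ⟨hA.1, h⟩

theorem ct_le_card {U : Type*} [Fintype U] (P : U → Prop) (S : Finset U) (h : ∀ u, P u → u ∈ S) :
    ct P ≤ S.card := by
  refine Finset.card_le_card fun u hu => ?_
  rw [mem_tS] at hu
  exact h u hu

theorem ct_inj {U T : Type*} [Fintype U] (P : U → Prop) (S : Finset T) (f : U → T)
    (hf : ∀ u u', P u → P u' → f u = f u' → u = u') (h : ∀ u, P u → f u ∈ S) :
    ct P ≤ S.card := by
  refine Finset.card_le_card_of_injOn f ?_ ?_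
  · intro u hu
    rw [mem_coe, mem_tS] at hu
    exact h u hu
  · intro u hu u' hu' he
    rw [mem_coe, mem_tS] at hu hu'
    exact hf u u' hu hu' he

theorem avg {U : Type*} [Fintype U] (φ : U → Matrix V V F) (hφ : ∀ u, IsAlt (φ u))
    (P : Matrix V V F → Prop) (B : ℕ) (hB : ∀ A, IsAlt A → ct (fun u => P (A + φ u)) ≤ B) :
    cn P * Fintype.card U ≤ B * (altSet V).card := by
  classical
  have h1 : ∀ u : U, (cS fun A => P (A + φ u)).card = cn P := by
    intro u
    rw [cn]
    refine Finset.card_bij (fun A _ => A + φ u) ?_ ?_ ?_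
    · intro A hA
      rw [mem_cS] at hA ⊢
      exact ⟨hA.1.add (hφ u), hA.2⟩
    · intro A _ A' _ he
      exact add_right_cancel he
    · intro A hA
      rw [mem_cS] at hA
      have h2 : A + φ u + φ u = A := by
        ext i j
        rw [Matrix.add_apply, Matrix.add_apply, add_assoc, F_add_self, add_zero]
      refine ⟨A + φ u, ?_, h2⟩
      rw [mem_cS, h2]
      exact ⟨hA.1.add (hφ u), hA.2⟩
  have h2 : cn P * Fintype.card U = ∑ u : U, (cS fun A => P (A + φ u)).card := by
    rw [Finset.sum_congr rfl fun u _ => h1 u, Finset.sum_const, Finset.card_univ, smul_eq_mul,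
      mul_comm]
  have h3 : ∑ u : U, (cS fun A => P (A + φ u)).card =
      ∑ A ∈ altSet V, (tS fun u => P (A + φ u)).card := by
    have e1 : ∀ u : U, (cS fun A => P (A + φ u)).card =
        ∑ A ∈ altSet V, if P (A + φ u) then 1 else 0 := by
      intro u
      rw [cS, Finset.card_filter]
    have e2 : ∀ A : Matrix V V F, (tS fun u => P (A + φ u)).card =
        ∑ u : U, if P (A + φ u) then 1 else 0 := by
      intro A
      rw [tS, Finset.card_filter]
    rw [Finset.sum_congr rfl fun u _ => e1 u, Finset.sum_congr rfl fun A _ => e2 A,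
      Finset.sum_comm]
  rw [h2, h3]
  calc _ ≤ ∑ A ∈ altSet V, B := Finset.sum_le_sum fun A hA => hB A ((mem_altSet A).1 hA)
    _ = B * (altSet V).card := by rw [Finset.sum_const, smul_eq_mul, mul_comm]

/-- The real number attached to an element of the field with two elements. -/
noncomputable def re (x : F) : ℝ := if x = 1 then 1 else 0

theorem re_zero : re 0 = 0 := by
  rw [re, if_neg]
  decide

theorem re_one : re 1 = 1 := by rw [re, if_pos rfl]

theorem toM_re (G : SimpleGraph V) [DecidableRel G.Adj] (u v : V) :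
    re (toM G u v) = G.adjMatrix ℝ u v := by
  classical
  rw [SimpleGraph.adjMatrix_apply, toM_apply]
  by_cases h : G.Adj u v
  · rw [if_pos h, if_pos h, re_one]
  · rw [if_neg h, if_neg h, re_zero]

/-- A matrix supported on pairs between two disjoint sets. -/
def bip (S T : Finset V) (u : V → V → F) : Matrix V V F :=
  Matrix.of fun v w => if v ∈ S ∧ w ∈ T then u v w else if w ∈ S ∧ v ∈ T then u w v else 0

theorem bip_alt {S T : Finset V} (h : Disjoint S T) (u : V → V → F) : IsAlt (bip S T u) := by
  have hd : ∀ v, v ∈ S → v ∈ T → False := fun v h1 h2 => (Finset.disjoint_left.1 h) h1 h2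
  constructor
  · ext v w
    rw [transpose_apply]
    simp only [bip, Matrix.of_apply]
    by_cases h1 : v ∈ S ∧ w ∈ T
    · rw [if_pos h1, if_neg, if_pos h1]
      rintro ⟨h2, h3⟩
      exact hd w h2 h1.2
    · by_cases h2 : w ∈ S ∧ v ∈ T
      · rw [if_pos h2, if_neg h1, if_pos h2]
      · rw [if_neg h2, if_neg h1, if_neg h1, if_neg h2]
  · intro w
    simp only [bip, Matrix.of_apply]
    rw [if_neg, if_neg]
    · rintro ⟨h1, h2⟩
      exact hd w h1 h2
    · rintro ⟨h1, h2⟩
      exact hd w h1 h2

theorem bip_of_mem {S T : Finset V} (u : V → V → F) {v w : V} (hv : v ∈ S) (hw : w ∈ T) :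
    bip S T u v w = u v w := by
  simp only [bip, Matrix.of_apply]
  rw [if_pos ⟨hv, hw⟩]

end DQ
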