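import Pool.Agent.helper62.DQ.CA2

/-!
# Vectors with few nonzero entries and many good rows
-/

set_option autoImplicit false
set_option linter.unusedSectionVars false

namespace DQ

open Matrix Finset DS

variable {V : Type*} [Fintype V] [DecidableEq V]

/-- The event for vectors with few nonzero entries. -/
def EvS (T : Finset V) (w : ℕ) (A : Matrix V V F) : Prop :=
  ∃ q : V → ℝ, (∀ v ∈ T, q v = 0) ∧ (∀ v, v ∉ T → q v ≠ 0 ∧ |q v| < 1) ∧
    w ≤ (tS fun i : {i // i ∈ T} => Tri (rd A i q)).card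

/-- The event for one pattern. -/
def EvZ (T : Finset V) (Z : Finset ({v // v ∉ T} → F)) (w : ℕ) (A : Matrix V V F) : Prop :=
  w ≤ (tS fun i : {i // i ∈ T} => (fun v : {v // v ∉ T} => A i v) ∈ Z).card

theorem flip_sum {R : Type*} [Fintype R] [DecidableEq R] (y : R → ℝ) (v₀ : R) (a e : R → F)
    (he : e = Pi.single v₀ 1) : ∃ s : ℝ, (s = 1 ∨ s = -1) ∧
      ∑ v, re (a v + e v) * y v = ∑ v, re (a v) * y v + s * y v₀ := by
  have e1 : ∀ b : R → ℝ, ∑ v, b v * y v =
      b v₀ * y v₀ + ∑ v ∈ univ.erase v₀, b v * y v := fun b =>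
    (Finset.add_sum_erase univ _ (mem_univ v₀)).symm
  have e2 : ∑ v ∈ univ.erase v₀, re (a v + e v) * y v =
      ∑ v ∈ univ.erase v₀, re (a v) * y v := by
    refine Finset.sum_congr rfl fun v hv => ?_
    rw [he, Pi.single_eq_of_ne (mem_erase.1 hv).1, add_zero]
  rw [e1 fun v => re (a v + e v), e1 fun v => re (a v), e2, he, Pi.single_eq_same]
  rcases F_cases (a v₀) with h | h
  · refine ⟨1, Or.inl rfl, ?_⟩
    rw [h, zero_add, re_one, re_zero]
    ring
  · refine ⟨-1, Or.inr rfl, ?_⟩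
    rw [h, F_add_self, re_one, re_zero]
    ring

theorem tri_excl {X d : ℝ} (h2 : d ≠ 0) (h3 : d < 1 ∧ -1 < d) (h : Tri X) (h' : Tri (X + d)) :
    False := by
  rcases h with h4 | h4 | h4 <;> rcases h' with h5 | h5 | h5
  · exact h2 (by linarith)
  · linarith [h3.1, h3.2]
  · linarith [h3.1, h3.2]
  · linarith [h3.1, h3.2]
  · exact h2 (by linarith)
  · linarith [h3.1, h3.2]
  · linarith [h3.1, h3.2]
  · linarith [h3.1, h3.2]
  · exact h2 (by linarith)

theorem flip_card {R : Type*} [Fintype R] [DecidableEq R] [Nonempty R] (y : R → ℝ)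
    (hy : ∀ v, y v ≠ 0 ∧ |y v| < 1) :
    2 * (tS fun a : R → F => Tri (∑ v, re (a v) * y v)).card ≤ 2 ^ Fintype.card R := by
  classical
  obtain ⟨v₀⟩ := ‹Nonempty R›
  obtain ⟨e, he⟩ : ∃ e : R → F, e = Pi.single v₀ 1 := ⟨_, rfl⟩
  obtain ⟨Z, hZ⟩ : ∃ Z, Z = tS fun a : R → F => Tri (∑ v, re (a v) * y v) := ⟨_, rfl⟩
  rw [← hZ]
  have hdisj : Disjoint Z (Z.image fun a => a + e) := by
    rw [Finset.disjoint_left]
    intro a ha ha'
    rw [mem_image] at ha'
    obtain ⟨a', ha', rfl⟩ := ha'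
    rw [hZ, mem_tS] at ha ha'
    obtain ⟨s, hs, hse⟩ := flip_sum y v₀ a' e he
    simp only [Pi.add_apply] at ha
    rw [hse] at ha
    have h0 := (hy v₀).1
    have h1 := abs_lt.1 (hy v₀).2
    have h2 : s * y v₀ ≠ 0 := by
      rcases hs with rfl | rfl
      · simpa using h0
      · simpa using h0
    have h3 : s * y v₀ < 1 ∧ -1 < s * y v₀ := by
      rcases hs with rfl | rfl
      · constructor <;> linarith [h1.1, h1.2]
      · constructor <;> linarith [h1.1, h1.2]
    exact tri_excl h2 h3 ha' ha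
  have hc : (Z.image fun a => a + e).card = Z.card :=
    Finset.card_image_of_injective _ (add_left_injective _)
  have h1 := Finset.card_le_univ (Z ∪ (Z.image fun a => a + e))
  rw [Finset.card_union_of_disjoint hdisj, hc, card_fun] at h1
  omega

/-- The linear form attached to a row. -/
noncomputable def LF {R : Type*} [Fintype R] (a : R → F) : (R → ℝ) → ℝ :=
  fun y => ∑ v, re (a v) * y v

theorem LF_apply {R : Type*} [Fintype R] (a : R → F) (y : R → ℝ) :
    LF a y = ∑ v, re (a v) * y v := rfl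

theorem LF_mem {R : Type*} [Fintype R] [DecidableEq R] (a : R → F) : LF a ∈ Mon R 1 :=
  Mon_linear fun v => re (a v)

/-- The cubic whose zeros are the three values. -/
noncomputable def CF {R : Type*} [Fintype R] (a : R → F) : (R → ℝ) → ℝ :=
  LF a * (LF a + fun _ => 1) * (LF a + fun _ => -1)

theorem CF_mem {R : Type*} [Fintype R] [DecidableEq R] (a : R → F) : CF a ∈ Mon R (1 + 1 + 1) :=
  Mon_mul (Mon_mul (LF_mem a) (Submodule.add_mem _ (LF_mem a) (Mon_const 1 1)))
    (Submodule.add_mem _ (LF_mem a) (Mon_const 1 (-1)))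

theorem CF_zero {R : Type*} [Fintype R] (a : R → F) (y : R → ℝ) :
    Tri (∑ v, re (a v) * y v) ↔ CF a y = 0 := by
  rw [← LF_apply]
  have e : CF a y = LF a y * (LF a y + 1) * (LF a y + -1) := rfl
  rw [e, mul_eq_zero, mul_eq_zero]
  constructor
  · rintro (h | h | h)
    · exact Or.inl (Or.inr (by linarith))
    · exact Or.inl (Or.inl h)
    · exact Or.inr (by linarith)
  · rintro ((h | h) | h)
    · exact Or.inr (Or.inl h)
    · exact Or.inl (by linarith)
    · exact Or.inr (Or.inr (by linarith))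

theorem card_pat_gen {R : Type*} [Fintype R] [DecidableEq R] (S : Finset (Finset (R → F)))
    (hS : ∀ Z ∈ S, ∃ y : R → ℝ, ∀ a, a ∈ Z ↔ CF a y = 0) :
    S.card ≤ (3 * 2 ^ Fintype.card R + 1) ^ Fintype.card R := by
  have h := zero_patterns_Mon (ι := R) (κ := R → F) CF (1 + 1 + 1) CF_mem S hS
  rw [card_fun] at h
  exact h

/-- The realised patterns. -/
noncomputable def Pat (T : Finset V) : Finset (Finset ({v // v ∉ T} → F)) :=
  tS fun Z => ∃ y : {v // v ∉ T} → ℝ, (∀ v, y v ≠ 0 ∧ |y v| < 1) ∧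
    Z = tS fun a : {v // v ∉ T} → F => Tri (∑ v, re (a v) * y v)

theorem card_Pat (T : Finset V) :
    (Pat T).card ≤ (3 * 2 ^ Fintype.card {v // v ∉ T} + 1) ^ Fintype.card {v // v ∉ T} := by
  refine card_pat_gen (Pat T) fun Z hZ => ?_
  rw [Pat, mem_tS] at hZ
  obtain ⟨y, -, hy⟩ := hZ
  refine ⟨y, fun a => ?_⟩
  rw [hy, mem_tS]
  exact CF_zero a y

theorem EvZ_bound (T : Finset V) (Z : Finset ({v // v ∉ T} → F))
    (hZ : 2 * Z.card ≤ 2 ^ Fintype.card {v // v ∉ T}) (w : ℕ) (t : ℝ) (ht : 1 ≤ t) :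
    (cn (EvZ T Z w) : ℝ) * t ^ w ≤ ((1 + t) / 2) ^ T.card * (altSet V).card := by
  classical
  have hST : Disjoint T Tᶜ := disjoint_compl_right
  have hU : (Fintype.card ({i // i ∈ T} → {v // v ∉ T} → F) : ℝ) =
      ((2 : ℝ) ^ Fintype.card {v // v ∉ T}) ^ T.card := by
    rw [Fintype.card_fun, card_fun, Fintype.card_coe]
    push_cast
    rfl
  have hpos : (0 : ℝ) < ((2 : ℝ) ^ Fintype.card {v // v ∉ T}) ^ T.card := by positivity
  have htw : (0 : ℝ) < t ^ w := by positivity
  have key := avgR (U := {i // i ∈ T} → {v // v ∉ T} → F)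
    (fun u => bip T Tᶜ (ext2 T T u)) (fun u => bip_alt hST _) (EvZ T Z w)
    (((1 + t) / 2 * 2 ^ Fintype.card {v // v ∉ T}) ^ T.card / t ^ w)
    (by positivity) ?_
  · rw [hU, mul_pow] at key
    have h2 : (cn (EvZ T Z w) : ℝ) * t ^ w * ((2 : ℝ) ^ Fintype.card {v // v ∉ T}) ^ T.card ≤
        ((1 + t) / 2) ^ T.card * (altSet V).card *
          ((2 : ℝ) ^ Fintype.card {v // v ∉ T}) ^ T.card := by
      calc _ = ((cn (EvZ T Z w) : ℝ) * ((2 : ℝ) ^ Fintype.card {v // v ∉ T}) ^ T.card) * t ^ w := by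
            ring
        _ ≤ (((1 + t) / 2) ^ T.card * ((2 : ℝ) ^ Fintype.card {v // v ∉ T}) ^ T.card / t ^ w *
            (altSet V).card) * t ^ w := mul_le_mul_of_nonneg_right key htw.le
        _ = _ := by field_simp
    exact le_of_mul_le_mul_right h2 hpos
  · intro A hA
    rw [le_div_iff₀ htw]
    -- row of the changed matrix
    have hent : ∀ (u : {i // i ∈ T} → {v // v ∉ T} → F) (i : {i // i ∈ T}),
        (fun v : {v // v ∉ T} => (A + bip T Tᶜ (ext2 T T u)) i v) =
          (fun v : {v // v ∉ T} => A i v) + u i := by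
      intro u i
      funext v
      rw [Matrix.add_apply, bip_of_mem _ i.2 (mem_compl.2 v.2), Pi.add_apply]
      congr 1
      rw [ext2, dif_pos i.2, dif_pos v.2]
    have h1 : (ct (fun u => EvZ T Z w (A + bip T Tᶜ (ext2 T T u))) : ℝ) * t ^ w ≤
        ∑ u : {i // i ∈ T} → {v // v ∉ T} → F, ∏ i : {i // i ∈ T},
          (if (fun v : {v // v ∉ T} => A i v) + u i ∈ Z then t else 1) := by
      rw [ct, ← nsmul_eq_mul]
      have hs : ∀ u ∈ (tS fun u => EvZ T Z w (A + bip T Tᶜ (ext2 T T u))),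
          t ^ w ≤ ∏ i : {i // i ∈ T},
          (if (fun v : {v // v ∉ T} => A i v) + u i ∈ Z then t else 1) := by
        intro u hu
        rw [mem_tS, EvZ] at hu
        rw [Finset.prod_ite, Finset.prod_const, Finset.prod_const_one, mul_one]
        refine pow_le_pow_right₀ ht (hu.trans (Finset.card_le_card ?_))
        intro i hi
        rw [mem_tS, hent] at hi
        exact mem_filter.2 ⟨mem_univ _, hi⟩
      refine (Finset.card_nsmul_le_sum _ _ _ hs).trans ?_
      refine Finset.sum_le_sum_of_subset_of_nonneg (subset_univ _) fun u _ _ => ?_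
      refine Finset.prod_nonneg fun i _ => ?_
      split_ifs
      · linarith
      · exact zero_le_one
    refine h1.trans ?_
    have h2 : ∑ u : {i // i ∈ T} → {v // v ∉ T} → F, ∏ i : {i // i ∈ T},
          (if (fun v : {v // v ∉ T} => A i v) + u i ∈ Z then t else 1) =
        ∏ i : {i // i ∈ T}, ∑ a : {v // v ∉ T} → F,
          (if (fun v : {v // v ∉ T} => A i v) + a ∈ Z then t else 1) := by
      rw [Finset.prod_univ_sum, Fintype.piFinset_univ]
    rw [h2]
    have h3 : ∀ i : {i // i ∈ T}, ∑ a : {v // v ∉ T} → F,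
          (if (fun v : {v // v ∉ T} => A i v) + a ∈ Z then t else 1) ≤
        (1 + t) / 2 * 2 ^ Fintype.card {v // v ∉ T} := by
      intro i
      have e1 : ∑ a : {v // v ∉ T} → F,
          (if (fun v : {v // v ∉ T} => A i v) + a ∈ Z then t else 1) =
          ∑ a : {v // v ∉ T} → F, (if a ∈ Z then t else 1) :=
        Fintype.sum_equiv (Equiv.addLeft (fun v : {v // v ∉ T} => A i v)) _ _ fun a => rfl
      have e2 : ∑ a : {v // v ∉ T} → F, (if a ∈ Z then t else 1) =
          2 ^ Fintype.card {v // v ∉ T} + (t - 1) * Z.card := by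
        have : ∀ a : {v // v ∉ T} → F, (if a ∈ Z then t else 1) =
            1 + (if a ∈ Z then t - 1 else 0) := by
          intro a
          split_ifs <;> ring
        rw [Finset.sum_congr rfl fun a _ => this a, Finset.sum_add_distrib, Finset.sum_const,
          Finset.card_univ, card_fun, Finset.sum_ite_mem, Finset.univ_inter, Finset.sum_const]
        simp only [nsmul_eq_mul, mul_one]
        push_cast
        ring
      rw [e1, e2]
      have h4 : 2 * (Z.card : ℝ) ≤ 2 ^ Fintype.card {v // v ∉ T} := by exact_mod_cast hZ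
      nlinarith
    calc _ ≤ ∏ i : {i // i ∈ T}, ((1 + t) / 2 * 2 ^ Fintype.card {v // v ∉ T}) := by
          refine Finset.prod_le_prod (fun i _ => ?_) fun i _ => h3 i
          refine Finset.sum_nonneg fun a _ => ?_
          split_ifs
          · linarith
          · exact zero_le_one
      _ = _ := by rw [Finset.prod_const, Finset.card_univ, Fintype.card_coe]

theorem EvS_bound (T : Finset V) (hT : ∃ v, v ∉ T) (w : ℕ) (t : ℝ) (ht : 1 ≤ t) :
    (cn (EvS T w) : ℝ) * t ^ w ≤
      (3 * 2 ^ Fintype.card {v // v ∉ T} + 1) ^ Fintype.card {v // v ∉ T} *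
      (((1 + t) / 2) ^ T.card * (altSet V).card) := by
  classical
  obtain ⟨v₀, hv₀⟩ := hT
  have : Nonempty {v // v ∉ T} := ⟨⟨v₀, hv₀⟩⟩
  have h1 : cn (EvS T w) ≤ ∑ Z ∈ Pat T, cn (EvZ T Z w) := by
    refine le_trans (cn_mono fun A _ hA => ?_) (cn_union (Pat T) fun Z => EvZ T Z w)
    obtain ⟨q, hq1, hq2, hq3⟩ := hA
    refine ⟨tS fun a : {v // v ∉ T} → F => Tri (∑ v, re (a v) * q v), ?_, ?_⟩
    · rw [Pat, mem_tS]
      exact ⟨fun v => q v, fun v => hq2 v v.2, rfl⟩
    · rw [EvZ]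
      refine hq3.trans (le_of_eq ?_)
      congr 1
      ext i
      rw [mem_tS, mem_tS, mem_tS, rd_restrict A i hq1]
  have h2 : (cn (EvS T w) : ℝ) * t ^ w ≤ ∑ Z ∈ Pat T, (cn (EvZ T Z w) : ℝ) * t ^ w := by
    rw [← Finset.sum_mul]
    refine mul_le_mul_of_nonneg_right ?_ (by positivity)
    exact_mod_cast h1
  have h3 : ∀ Z ∈ Pat T, (cn (EvZ T Z w) : ℝ) * t ^ w ≤
      ((1 + t) / 2) ^ T.card * (altSet V).card := by
    intro Z hZ
    rw [Pat, mem_tS] at hZ
    obtain ⟨y, hy, rfl⟩ := hZ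
    exact EvZ_bound T _ (flip_card y hy) w t ht
  refine h2.trans ((Finset.sum_le_card_nsmul _ _ _ h3).trans ?_)
  rw [nsmul_eq_mul]
  refine mul_le_mul_of_nonneg_right ?_ (by positivity)
  exact_mod_cast card_Pat T

end DQ
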