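import Pool.Agent.helper62.DQ.LO

/-!
# Vectors with many nonzero entries
-/

set_option autoImplicit false
set_option linter.unusedSectionVars false

namespace DQ

open Matrix Finset DS

variable {V : Type*} [Fintype V] [DecidableEq V]

theorem avgR {U : Type*} [Fintype U] (φ : U → Matrix V V F) (hφ : ∀ u, IsAlt (φ u))
    (P : Matrix V V F → Prop) (B : ℝ) (hB0 : 0 ≤ B)
    (hB : ∀ A, IsAlt A → (ct (fun u => P (A + φ u)) : ℝ) ≤ B) :
    (cn P : ℝ) * Fintype.card U ≤ B * (altSet V).card := by
  have h := avg φ hφ P ⌊B⌋₊ fun A hA => Nat.le_floor (hB A hA)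
  have h2 : (cn P : ℝ) * Fintype.card U ≤ (⌊B⌋₊ : ℝ) * (altSet V).card := by exact_mod_cast h
  exact h2.trans (mul_le_mul_of_nonneg_right (Nat.floor_le hB0) (Nat.cast_nonneg _))

/-- The product of a row with a vector. -/
noncomputable def rd (A : Matrix V V F) (i : V) (q : V → ℝ) : ℝ := ∑ v, re (A i v) * q v

/-- The three values. -/
def Tri (x : ℝ) : Prop := x = -1 ∨ x = 0 ∨ x = 1

/-- The event for vectors with many nonzero entries. -/
def EvD (T I : Finset V) (b : V → ℝ) (j : ℕ) (A : Matrix V V F) : Prop :=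
  ∃ q : V → ℝ, (∀ v ∈ T, q v = 0) ∧ (4 * j + 1 ≤ (tS fun v => q v ≠ 0).card) ∧
    (∀ i ∈ I, rd A i q = b i) ∧ (∀ i ∈ T, Tri (rd A i q)) ∧
    ∀ x : V → ℝ, (∀ v ∈ T, x v = 0) → (∀ i ∈ I, rd A i x = 0) → ∀ i ∈ T, rd A i x = 0

theorem rd_restrict (A : Matrix V V F) (i : V) {T : Finset V} {q : V → ℝ}
    (hq : ∀ v ∈ T, q v = 0) : rd A i q = ∑ v : {v // v ∉ T}, re (A i v) * q v := by
  classical
  rw [rd, ← Finset.sum_add_sum_compl T]
  rw [Finset.sum_eq_zero (s := T) (fun v hv => by rw [hq v hv, mul_zero]), zero_add]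
  rw [← Finset.sum_subtype Tᶜ (fun v => mem_compl) (fun v => re (A i v) * q v)]

theorem exists_same_sign {R : Type*} [Fintype R] [DecidableEq R] (x : R → ℝ) (j : ℕ)
    (h : 4 * j + 1 ≤ (tS fun v => x v ≠ 0).card) :
    ∃ P : Finset R, P.card = 2 * j ∧ ((∀ v ∈ P, 0 < x v) ∨ (∀ v ∈ P, x v < 0)) := by
  classical
  have h1 : (tS fun v => x v ≠ 0) ⊆ (tS fun v => 0 < x v) ∪ (tS fun v => x v < 0) := by
    intro v hv
    rw [mem_tS] at hv
    rw [mem_union, mem_tS, mem_tS]
    rcases lt_or_gt_of_ne hv with h2 | h2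
    · exact Or.inr h2
    · exact Or.inl h2
  have h2 := (Finset.card_le_card h1).trans (Finset.card_union_le _ _)
  rcases Nat.lt_or_ge (tS fun v => 0 < x v).card (2 * j) with h3 | h3
  · have h4 : 2 * j ≤ (tS fun v => x v < 0).card := by omega
    obtain ⟨P, hP1, hP2⟩ := Finset.exists_subset_card_eq h4
    exact ⟨P, hP2, Or.inr fun v hv => (mem_tS (fun v => x v < 0) v).1 (hP1 hv)⟩
  · obtain ⟨P, hP1, hP2⟩ := Finset.exists_subset_card_eq h3
    exact ⟨P, hP2, Or.inl fun v hv => (mem_tS (fun v => 0 < x v) v).1 (hP1 hv)⟩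

/-- The proportion in the Littlewood Offord bound. -/
noncomputable def eta (j : ℕ) : ℝ := 3 * (Nat.centralBinom j : ℝ) / 4 ^ j

theorem eta_nonneg (j : ℕ) : 0 ≤ eta j := by
  rw [eta]
  positivity

theorem lo_tri {R : Type*} [Fintype R] [DecidableEq R] (x : R → ℝ) (j : ℕ)
    (h : 4 * j + 1 ≤ (tS fun v => x v ≠ 0).card) (a₀ : R → F) :
    (ct (fun a : R → F => Tri (∑ v, re (a₀ v + a v) * x v)) : ℝ) ≤
      eta j * 2 ^ Fintype.card R := by
  classical
  obtain ⟨P, hP, hx⟩ := exists_same_sign x j h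
  have h1 : ∀ c : ℝ, (ct (fun a : R → F => ∑ v, re (a v) * x v = c) : ℝ) ≤
      (Nat.centralBinom j : ℝ) / 4 ^ j * 2 ^ Fintype.card R := by
    intro c
    have := lo x P j hP hx c
    have h2 : (ct (fun a : R → F => ∑ v, re (a v) * x v = c) : ℝ) * 4 ^ j ≤
        Nat.centralBinom j * 2 ^ Fintype.card R := by exact_mod_cast this
    have hpos : (0 : ℝ) < 4 ^ j := by positivity
    rw [div_mul_eq_mul_div, le_div_iff₀ hpos]
    exact h2
  have h2 : ct (fun a : R → F => Tri (∑ v, re (a₀ v + a v) * x v)) ≤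
      ct (fun a : R → F => ∑ v, re (a v) * x v = -1) +
      ct (fun a : R → F => ∑ v, re (a v) * x v = 0) +
      ct (fun a : R → F => ∑ v, re (a v) * x v = 1) := by
    have h3 : ct (fun a : R → F => Tri (∑ v, re (a₀ v + a v) * x v)) ≤
        ((tS fun a : R → F => ∑ v, re (a v) * x v = -1) ∪
        (tS fun a : R → F => ∑ v, re (a v) * x v = 0) ∪
        (tS fun a : R → F => ∑ v, re (a v) * x v = 1)).card := by
      refine ct_inj _ _ (fun a => a₀ + a) ?_ ?_
      · intro a a' _ _ he
        exact add_left_cancel he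
      · intro a ha
        rw [mem_union, mem_union, mem_tS, mem_tS, mem_tS]
        simp only [Pi.add_apply]
        rcases ha with ha | ha | ha
        · exact Or.inl (Or.inl ha)
        · exact Or.inl (Or.inr ha)
        · exact Or.inr ha
    exact h3.trans ((Finset.card_union_le _ _).trans
      (Nat.add_le_add_right (Finset.card_union_le _ _) _))
  have h3 : (ct (fun a : R → F => Tri (∑ v, re (a₀ v + a v) * x v)) : ℝ) ≤
      ct (fun a : R → F => ∑ v, re (a v) * x v = -1) +
      ct (fun a : R → F => ∑ v, re (a v) * x v = 0) +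
      ct (fun a : R → F => ∑ v, re (a v) * x v = 1) := by exact_mod_cast h2
  refine h3.trans ?_
  have e : eta j * 2 ^ Fintype.card R =
      (Nat.centralBinom j : ℝ) / 4 ^ j * 2 ^ Fintype.card R +
      (Nat.centralBinom j : ℝ) / 4 ^ j * 2 ^ Fintype.card R +
      (Nat.centralBinom j : ℝ) / 4 ^ j * 2 ^ Fintype.card R := by
    rw [eta]
    ring
  rw [e]
  exact add_le_add (add_le_add (h1 _) (h1 _)) (h1 _)

/-- Extension of a block by zero. -/
def ext2 (S T : Finset V) (u : {i // i ∈ S} → {v // v ∉ T} → F) : V → V → F :=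
  fun i v => if h : i ∈ S then (if h' : v ∉ T then u ⟨i, h⟩ ⟨v, h'⟩ else 0) else 0

theorem EvD_bound (T I : Finset V) (hI : I ⊆ T) (b : V → ℝ) (j : ℕ) :
    (cn (EvD T I b j) : ℝ) ≤ eta j ^ (T.card - I.card) * (altSet V).card := by
  classical
  set S := T \ I with hS
  have hST : Disjoint S Tᶜ := by
    rw [Finset.disjoint_left]
    intro v hv hv'
    rw [mem_compl] at hv'
    rw [hS, mem_sdiff] at hv
    exact hv' hv.1
  have hScard : S.card = T.card - I.card := Finset.card_sdiff_of_subset hI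
  have hU : (Fintype.card ({i // i ∈ S} → {v // v ∉ T} → F) : ℝ) =
      ((2 : ℝ) ^ Fintype.card {v // v ∉ T}) ^ S.card := by
    rw [Fintype.card_fun, card_fun, Fintype.card_coe]
    push_cast
    rfl
  have hpos : (0 : ℝ) < ((2 : ℝ) ^ Fintype.card {v // v ∉ T}) ^ S.card := by positivity
  have key := avgR (U := {i // i ∈ S} → {v // v ∉ T} → F)
    (fun u => bip S Tᶜ (ext2 S T u)) (fun u => bip_alt hST _) (EvD T I b j)
    ((eta j * 2 ^ Fintype.card {v // v ∉ T}) ^ S.card)
    (pow_nonneg (mul_nonneg (eta_nonneg j) (by positivity)) _) ?_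
  · rw [hU, mul_pow, mul_right_comm] at key
    rw [← hScard]
    exact le_of_mul_le_mul_right key hpos
  · intro A hA
    -- entries of the changed matrix
    have hent : ∀ (u : {i // i ∈ S} → {v // v ∉ T} → F) (i : V) (hi : i ∈ S)
        (v : {v // v ∉ T}), (A + bip S Tᶜ (ext2 S T u)) i v = A i v + u ⟨i, hi⟩ v := by
      intro u i hi v
      rw [Matrix.add_apply, bip_of_mem _ hi (mem_compl.2 v.2)]
      congr 1
      rw [ext2, dif_pos hi, dif_pos v.2]
    have hent2 : ∀ (u : {i // i ∈ S} → {v // v ∉ T} → F) (i : V) (hi : i ∈ I)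
        (v : {v // v ∉ T}), (A + bip S Tᶜ (ext2 S T u)) i v = A i v := by
      intro u i hi v
      rw [Matrix.add_apply]
      have : bip S Tᶜ (ext2 S T u) i v = 0 := by
        simp only [bip, Matrix.of_apply]
        rw [if_neg, if_neg]
        · rintro ⟨h1, h2⟩
          rw [mem_compl] at h2
          exact h2 (hI hi)
        · rintro ⟨h1, h2⟩
          rw [hS, mem_sdiff] at h1
          exact h1.2 hi
      rw [this, add_zero]
    by_cases hne : ∃ x : V → ℝ, (∀ v ∈ T, x v = 0) ∧ (4 * j + 1 ≤ (tS fun v => x v ≠ 0).card) ∧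
        ∀ i ∈ I, rd A i x = b i
    · obtain ⟨x, hx1, hx2, hx3⟩ := hne
      -- the set of good rows
      let N : {i // i ∈ S} → Finset ({v // v ∉ T} → F) := fun i =>
        tS fun a => Tri (∑ v : {v // v ∉ T}, re (A i v + a v) * x v)
      have h1 : ct (fun u => EvD T I b j (A + bip S Tᶜ (ext2 S T u))) ≤
          (Fintype.piFinset N).card := by
        refine ct_le_card _ _ fun u hu => ?_
        rw [Fintype.mem_piFinset]
        intro i
        obtain ⟨q, hq1, hq2, hq3, hq4, hq5⟩ := hu
        have hiT : (i : V) ∈ T := (mem_sdiff.1 i.2).1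
        have hI2 : ∀ i' ∈ I, rd (A + bip S Tᶜ (ext2 S T u)) i' x = b i' := by
          intro i' hi'
          rw [← hx3 i' hi', rd_restrict _ _ hx1, rd_restrict _ _ hx1]
          exact Finset.sum_congr rfl fun v _ => by rw [hent2 u i' hi' v]
        have hz := hq5 (fun v => q v - x v) (fun v hv => by rw [hq1 v hv, hx1 v hv, sub_zero])
          (fun i' hi' => by
            have e : rd (A + bip S Tᶜ (ext2 S T u)) i' (fun v => q v - x v) =
                rd (A + bip S Tᶜ (ext2 S T u)) i' q - rd (A + bip S Tᶜ (ext2 S T u)) i' x := by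
              rw [rd, rd, rd, ← Finset.sum_sub_distrib]
              exact Finset.sum_congr rfl fun v _ => by ring
            rw [e, hq3 i' hi', hI2 i' hi', sub_self]) i hiT
        have e : rd (A + bip S Tᶜ (ext2 S T u)) i (fun v => q v - x v) =
            rd (A + bip S Tᶜ (ext2 S T u)) i q - rd (A + bip S Tᶜ (ext2 S T u)) i x := by
          rw [rd, rd, rd, ← Finset.sum_sub_distrib]
          exact Finset.sum_congr rfl fun v _ => by ring
        rw [e, sub_eq_zero] at hz
        have h3 := hq4 i hiT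
        rw [hz, rd_restrict _ _ hx1] at h3
        rw [mem_tS]
        have e2 : ∑ v : {v // v ∉ T}, re (A i v + u i v) * x v =
            ∑ v : {v // v ∉ T}, re ((A + bip S Tᶜ (ext2 S T u)) i v) * x v :=
          Finset.sum_congr rfl fun v _ => by rw [hent u i i.2 v]
        rw [e2]
        exact h3
      have h2 : ∀ i, ((N i).card : ℝ) ≤ eta j * 2 ^ Fintype.card {v // v ∉ T} := by
        intro i
        refine lo_tri (fun v : {v // v ∉ T} => x v) j ?_ (fun v => A i v)
        refine hx2.trans ?_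
        refine Finset.card_le_card_of_surjOn (fun v : {v // v ∉ T} => (v : V)) ?_
        intro v hv
        rw [mem_coe, mem_tS] at hv
        have hvT : v ∉ T := fun h => hv (hx1 v h)
        exact ⟨⟨v, hvT⟩, by rw [mem_coe, mem_tS]; exact hv, rfl⟩
      have h3 : ((Fintype.piFinset N).card : ℝ) ≤
          (eta j * 2 ^ Fintype.card {v // v ∉ T}) ^ S.card := by
        rw [Fintype.card_piFinset]
        push_cast
        calc ∏ i, ((N i).card : ℝ) ≤ ∏ i : {i // i ∈ S},
              (eta j * 2 ^ Fintype.card {v // v ∉ T}) :=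
              Finset.prod_le_prod (fun i _ => Nat.cast_nonneg _) fun i _ => h2 i
          _ = _ := by rw [Finset.prod_const, Finset.card_univ, Fintype.card_coe]
      refine le_trans ?_ h3
      exact_mod_cast h1
    · have h1 : ct (fun u => EvD T I b j (A + bip S Tᶜ (ext2 S T u))) ≤
          (∅ : Finset ({i // i ∈ S} → {v // v ∉ T} → F)).card := by
        refine ct_le_card _ _ fun u hu => ?_
        exfalso
        apply hne
        obtain ⟨q, hq1, hq2, hq3, hq4, hq5⟩ := hu
        refine ⟨q, hq1, hq2, fun i hi => ?_⟩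
        rw [← hq3 i hi, rd_restrict _ _ hq1, rd_restrict _ _ hq1]
        exact Finset.sum_congr rfl fun v _ => by rw [hent2 u i hi v]
      rw [card_empty, Nat.le_zero] at h1
      rw [h1, Nat.cast_zero]
      exact pow_nonneg (mul_nonneg (eta_nonneg j) (by positivity)) _

end DQ
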