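import Pool.Agent.helper62.DQ.CA1

/-!
# Many sparse columns
-/

set_option autoImplicit false
set_option linter.unusedSectionVars false

namespace DQ

open Matrix Finset DS

variable {V : Type*} [Fintype V] [DecidableEq V]

/-- The bilinear form of a matrix modulo two, read in the real numbers. -/
noncomputable def QF (A : Matrix V V F) (x y : V → ℝ) : ℝ := ∑ v, ∑ w, x v * re (A v w) * y w

/-- The event for many sparse columns with private entries. -/
def EvP (m k : ℕ) (u : Fin m → V) (σ : Fin m → Fin k → V) (A : Matrix V V F) : Prop :=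
  ∃ q : Fin m → V → ℝ, (∀ a v, (∀ i, σ a i ≠ v) → q a v = 0) ∧
    (∀ a, q a (u a) ≠ 0 ∧ |q a (u a)| < 1) ∧ (∀ a b, a ≠ b → q a (u b) = 0) ∧
    ∀ a b, a < b → (QF A (q a) (q b) = 0 ∨ QF A (q a) (q b) = 1)

/-- Pairs of columns. -/
abbrev Kp (m : ℕ) := {p : Fin m × Fin m // p.1 < p.2}

theorem EvP_inj {m k : ℕ} {u : Fin m → V} {σ : Fin m → Fin k → V} {A : Matrix V V F}
    (h : EvP m k u σ A) : Function.Injective u := by
  obtain ⟨q, -, h2, h3, -⟩ := h
  intro a b hab
  by_contra hne
  have h4 := h3 a b hne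
  rw [← hab] at h4
  exact (h2 a).1 h4

/-- The change of the private entries. -/
noncomputable def ph {m : ℕ} (u : Fin m → V) (x : Kp m → F) : Matrix V V F :=
  Matrix.of fun v w => (∑ p : Kp m, if v = u p.1.1 ∧ w = u p.1.2 then x p else 0) +
    ∑ p : Kp m, if w = u p.1.1 ∧ v = u p.1.2 then x p else 0

theorem ph_apply {m : ℕ} (u : Fin m → V) (x : Kp m → F) (v w : V) : ph u x v w =
    (∑ p : Kp m, if v = u p.1.1 ∧ w = u p.1.2 then x p else 0) +
    ∑ p : Kp m, if w = u p.1.1 ∧ v = u p.1.2 then x p else 0 := rfl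

theorem ph_alt {m : ℕ} {u : Fin m → V} (hu : Function.Injective u) (x : Kp m → F) :
    IsAlt (ph u x) := by
  constructor
  · ext v w
    rw [transpose_apply, ph_apply, ph_apply, add_comm]
  · intro w
    have hz : ∀ p ∈ (univ : Finset (Kp m)),
        (if w = u p.1.1 ∧ w = u p.1.2 then x p else 0) = 0 := by
      intro p _
      rw [if_neg]
      rintro ⟨h1, h2⟩
      have := hu (h1.symm.trans h2)
      exact absurd p.2 (by rw [this]; exact lt_irrefl _)
    rw [ph_apply, Finset.sum_eq_zero hz, add_zero]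

theorem ph_pivot {m : ℕ} {u : Fin m → V} (hu : Function.Injective u) (x : Kp m → F) (p : Kp m) :
    ph u x (u p.1.1) (u p.1.2) = x p := by
  rw [ph_apply, Finset.sum_eq_single_of_mem p (mem_univ p), if_pos ⟨rfl, rfl⟩,
    Finset.sum_eq_zero, add_zero]
  · intro p' _
    rw [if_neg]
    rintro ⟨h1, h2⟩
    have h3 := hu h1
    have h4 := hu h2
    have h5 := p.2
    have h6 := p'.2
    rw [← h3, ← h4] at h6
    exact absurd h5 (not_lt.2 h6.le)
  · intro p' _ hne
    rw [if_neg]
    rintro ⟨h1, h2⟩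
    exact hne (Subtype.ext (Prod.ext (hu h1).symm (hu h2).symm))

theorem ph_other {m : ℕ} (u : Fin m → V) (x : Kp m → F) {v w : V}
    (h : ¬ ((∃ c, v = u c) ∧ ∃ d, w = u d)) : ph u x v w = 0 := by
  rw [ph_apply, Finset.sum_eq_zero, zero_add, Finset.sum_eq_zero]
  · intro p _
    rw [if_neg]
    rintro ⟨h1, h2⟩
    exact h ⟨⟨_, h2⟩, ⟨_, h1⟩⟩
  · intro p _
    rw [if_neg]
    rintro ⟨h1, h2⟩
    exact h ⟨⟨_, h1⟩, ⟨_, h2⟩⟩

open scoped Classical in
/-- The real matrix without the private entries. -/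
noncomputable def M0 {m : ℕ} (u : Fin m → V) (A : Matrix V V F) (v w : V) : ℝ :=
  if (∃ c, v = u c) ∧ ∃ d, w = u d then 0 else re (A v w)

theorem QF_split {m : ℕ} {u : Fin m → V} (hu : Function.Injective u) (A : Matrix V V F)
    (x : Kp m → F) (q : Fin m → V → ℝ) (hq : ∀ a b, a ≠ b → q a (u b) = 0) (p : Kp m) :
    QF (A + ph u x) (q p.1.1) (q p.1.2) =
      (∑ v, ∑ w, q p.1.1 v * M0 u A v w * q p.1.2 w) +
      q p.1.1 (u p.1.1) * re (A (u p.1.1) (u p.1.2) + x p) * q p.1.2 (u p.1.2) := by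
  classical
  have hterm : ∀ v w, q p.1.1 v * re ((A + ph u x) v w) * q p.1.2 w =
      q p.1.1 v * M0 u A v w * q p.1.2 w +
      (if v = u p.1.1 then (if w = u p.1.2 then
        q p.1.1 (u p.1.1) * re (A (u p.1.1) (u p.1.2) + x p) * q p.1.2 (u p.1.2) else 0)
        else 0) := by
    intro v w
    by_cases h : (∃ c, v = u c) ∧ ∃ d, w = u d
    · rw [M0, if_pos h, mul_zero, zero_mul, zero_add]
      obtain ⟨⟨c, rfl⟩, ⟨d, rfl⟩⟩ := h
      by_cases hc : c = p.1.1
      · by_cases hd : d = p.1.2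
        · subst hc hd
          rw [if_pos rfl, if_pos rfl, Matrix.add_apply, ph_pivot hu]
        · rw [hq p.1.2 d (Ne.symm hd), mul_zero, if_neg (c := u d = u p.1.2)]
          · rw [ite_self]
          · exact fun h => hd (hu h)
      · rw [hq p.1.1 c (Ne.symm hc), zero_mul, zero_mul, if_neg]
        exact fun h => hc (hu h)
    · rw [M0, if_neg h, Matrix.add_apply, ph_other u x h, add_zero]
      have : ¬ (v = u p.1.1 ∧ w = u p.1.2) := fun h2 => h ⟨⟨_, h2.1⟩, ⟨_, h2.2⟩⟩
      by_cases h1 : v = u p.1.1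
      · by_cases h2 : w = u p.1.2
        · exact absurd ⟨h1, h2⟩ this
        · rw [if_neg (c := w = u p.1.2) h2, ite_self, add_zero]
      · rw [if_neg h1, add_zero]
  rw [QF]
  rw [Finset.sum_congr rfl fun v _ => Finset.sum_congr rfl fun w _ => hterm v w]
  simp only [Finset.sum_add_distrib]
  congr 1
  rw [Finset.sum_eq_single_of_mem (u p.1.1) (mem_univ _)]
  · rw [Finset.sum_eq_single_of_mem (u p.1.2) (mem_univ _)]
    · rw [if_pos rfl, if_pos rfl]
    · intro w _ hw
      rw [if_pos rfl, if_neg hw]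
  · intro v _ hv
    rw [Finset.sum_eq_zero]
    intro w _
    rw [if_neg hv]

/-- The variables. -/
abbrev Vr {m k : ℕ} (σ : Fin m → Fin k → V) :=
  Σ a : Fin m, {v : V // v ∈ (univ.image (σ a) : Finset V)}

theorem card_Vr {m k : ℕ} (σ : Fin m → Fin k → V) : Fintype.card (Vr σ) ≤ m * k := by
  rw [Fintype.card_sigma]
  calc _ ≤ ∑ _a : Fin m, k := by
        refine Finset.sum_le_sum fun a _ => ?_
        rw [Fintype.card_coe]
        refine Finset.card_image_le.trans ?_
        rw [Finset.card_univ, Fintype.card_fin]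
    _ = m * k := by rw [Finset.sum_const, Finset.card_univ, Fintype.card_fin, smul_eq_mul]

/-- The bilinear polynomial of a pair of columns. -/
noncomputable def GP {m k : ℕ} (σ : Fin m → Fin k → V) (M : V → V → ℝ) (p : Kp m) :
    (Vr σ → ℝ) → ℝ :=
  ∑ v : {v : V // v ∈ (univ.image (σ p.1.1) : Finset V)},
    ∑ w : {v : V // v ∈ (univ.image (σ p.1.2) : Finset V)},
      M v w • fun y : Vr σ → ℝ => y ⟨p.1.1, v⟩ * y ⟨p.1.2, w⟩

theorem GP_mem {m k : ℕ} (σ : Fin m → Fin k → V) (M : V → V → ℝ) (p : Kp m) :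
    GP σ M p ∈ Mon (Vr σ) 1 := by
  refine Submodule.sum_mem _ fun v _ => Submodule.sum_mem _ fun w _ =>
    Submodule.smul_mem _ _ (Mon_pair ?_)
  intro h
  have := congrArg Sigma.fst h
  exact absurd p.2 (by rw [show p.1.1 = p.1.2 from this]; exact lt_irrefl _)

theorem GP_apply {m k : ℕ} (σ : Fin m → Fin k → V) (M : V → V → ℝ) (p : Kp m)
    (q : Fin m → V → ℝ) (hq : ∀ a v, (∀ i, σ a i ≠ v) → q a v = 0) :
    GP σ M p (fun s => q s.1 s.2) = ∑ v, ∑ w, q p.1.1 v * M v w * q p.1.2 w := by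
  classical
  have hz : ∀ a v, v ∉ (univ.image (σ a) : Finset V) → q a v = 0 := by
    intro a v hv
    refine hq a v fun i hi => hv ?_
    rw [← hi]
    exact mem_image_of_mem _ (mem_univ i)
  have h1 : ∑ v, ∑ w, q p.1.1 v * M v w * q p.1.2 w =
      ∑ v ∈ (univ.image (σ p.1.1) : Finset V), ∑ w ∈ (univ.image (σ p.1.2) : Finset V),
        q p.1.1 v * M v w * q p.1.2 w := by
    rw [← Finset.sum_subset (subset_univ (univ.image (σ p.1.1) : Finset V))]
    · refine Finset.sum_congr rfl fun v _ => ?_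
      rw [← Finset.sum_subset (subset_univ (univ.image (σ p.1.2) : Finset V))]
      intro w _ hw
      rw [hz _ w hw, mul_zero]
    · intro v _ hv
      refine Finset.sum_eq_zero fun w _ => ?_
      rw [hz _ v hv, zero_mul, zero_mul]
  rw [h1, GP]
  simp only [Finset.sum_apply, Pi.smul_apply, smul_eq_mul]
  rw [← Finset.sum_coe_sort (univ.image (σ p.1.1) : Finset V)]
  refine Finset.sum_congr rfl fun v _ => ?_
  rw [← Finset.sum_coe_sort (univ.image (σ p.1.2) : Finset V)]
  refine Finset.sum_congr rfl fun w _ => ?_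
  ring

/-- The quadratic expression whose zeros are the two values. -/
noncomputable def HP {m k : ℕ} (σ : Fin m → Fin k → V) (M : V → V → ℝ) (p : Kp m) :
    (Vr σ → ℝ) → ℝ :=
  GP σ M p * (GP σ M p + fun _ => -1)

theorem HP_mem {m k : ℕ} (σ : Fin m → Fin k → V) (M : V → V → ℝ) (p : Kp m) :
    HP σ M p ∈ Mon (Vr σ) (1 + 1) :=
  Mon_mul (GP_mem σ M p) (Submodule.add_mem _ (GP_mem σ M p) (Mon_const 1 (-1)))

theorem HP_zero {m k : ℕ} (σ : Fin m → Fin k → V) (M : V → V → ℝ) (p : Kp m) (y : Vr σ → ℝ) :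
    HP σ M p y = 0 ↔ (GP σ M p y = 0 ∨ GP σ M p y = 1) := by
  have e : HP σ M p y = GP σ M p y * (GP σ M p y + -1) := rfl
  rw [e, mul_eq_zero]
  constructor
  · rintro (h | h)
    · exact Or.inl h
    · exact Or.inr (by linarith)
  · rintro (h | h)
    · exact Or.inl h
    · exact Or.inr (by linarith)

theorem EvP_bound (m k : ℕ) (u : Fin m → V) (σ : Fin m → Fin k → V) :
    cn (EvP m k u σ) * 2 ^ Fintype.card (Kp m) ≤
      (2 * Fintype.card (Kp m) + 1) ^ (m * k) * (altSet V).card := by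
  classical
  by_cases hu : Function.Injective u
  · have key := avg (U := Kp m → F) (fun x => ph u x) (fun x => ph_alt hu x) (EvP m k u σ)
      ((2 * Fintype.card (Kp m) + 1) ^ (m * k)) ?_
    · rwa [card_fun] at key
    · intro A hA
      let Zs : Finset (Finset (Kp m)) := tS fun Z =>
        ∃ y : Vr σ → ℝ, ∀ p, p ∈ Z ↔ HP σ (M0 u A) p y = 0
      have h1 : Zs.card ≤ (2 * Fintype.card (Kp m) + 1) ^ (m * k) := by
        have h := zero_patterns_Mon (HP σ (M0 u A)) (1 + 1) (HP_mem σ (M0 u A)) Zs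
          fun Z hZ => (mem_tS _ Z).1 hZ
        exact h.trans (Nat.pow_le_pow_right (by omega) (card_Vr σ))
      refine le_trans ?_ h1
      refine ct_inj _ _ (fun x => univ.filter fun p : Kp m => x p = A (u p.1.1) (u p.1.2)) ?_ ?_
      · intro x x' _ _ he
        funext p
        have h2 := Finset.ext_iff.1 he p
        rw [mem_filter, mem_filter] at h2
        have h3 : ∀ a b c : F, (a = c ↔ b = c) → a = b := by decide
        refine h3 _ _ (A (u p.1.1) (u p.1.2)) ⟨fun h4 => ?_, fun h4 => ?_⟩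
        · exact (h2.1 ⟨mem_univ _, h4⟩).2
        · exact (h2.2 ⟨mem_univ _, h4⟩).2
      · intro x hx
        obtain ⟨q, hq1, hq2, hq3, hq4⟩ := hx
        rw [mem_tS]
        refine ⟨fun s => q s.1 s.2, fun p => ?_⟩
        rw [mem_filter, HP_zero, GP_apply σ (M0 u A) p q hq1]
        have hs := QF_split hu A x q hq3 p
        have hv := hq4 p.1.1 p.1.2 p.2
        rw [hs] at hv
        have ha := hq2 p.1.1
        have hb := hq2 p.1.2
        have hd0 : q p.1.1 (u p.1.1) * q p.1.2 (u p.1.2) ≠ 0 := mul_ne_zero ha.1 hb.1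
        have hd1 : |q p.1.1 (u p.1.1) * q p.1.2 (u p.1.2)| < 1 := by
          rw [abs_mul]
          exact mul_lt_one_of_nonneg_of_lt_one_left (abs_nonneg _) ha.2 hb.2.le
        generalize (∑ v, ∑ w, q p.1.1 v * M0 u A v w * q p.1.2 w) = X at hv
        have hF : ∀ a b : F, (a = b ∧ b + a = 0) ∨ (a ≠ b ∧ b + a = 1) := by decide
        rcases hF (x p) (A (u p.1.1) (u p.1.2)) with ⟨h5, h6⟩ | ⟨h5, h6⟩
        · rw [h6, re_zero, mul_zero, zero_mul, add_zero] at hv
          exact ⟨fun _ => hv, fun _ => ⟨mem_univ _, h5⟩⟩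
        · rw [h6, re_one, mul_one] at hv
          constructor
          · intro h7
            exact absurd h7.2 h5
          · intro h7
            exfalso
            have h8 := abs_lt.1 hd1
            rcases h7 with h7 | h7 <;> rcases hv with h9 | h9
            · exact hd0 (by linarith)
            · linarith [h8.1, h8.2]
            · linarith [h8.1, h8.2]
            · exact hd0 (by linarith)
  · have h0 : cn (EvP m k u σ) = 0 := by
      rw [cn, card_eq_zero, Finset.eq_empty_iff_forall_notMem]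
      intro A hA
      rw [mem_cS] at hA
      exact hu (EvP_inj hA.2)
    rw [h0, zero_mul]
    exact Nat.zero_le _

theorem card_Kp (m : ℕ) : 2 * Fintype.card (Kp m) = m * (m - 1) := by
  have h1 : Fintype.card (Kp m) = ∑ a : Fin m, (univ.filter fun b : Fin m => a < b).card := by
    rw [Fintype.card_subtype, Finset.card_filter, ← Finset.univ_product_univ,
      Finset.sum_product]
    exact Finset.sum_congr rfl fun a _ => (Finset.card_filter _ _).symm
  have h2 : ∀ a : Fin m, (univ.filter fun b : Fin m => a < b).card = m - 1 - a := by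
    intro a
    rw [← Fin.card_Ioi]
    congr 1
    ext b
    simp
  rw [h1, Finset.sum_congr rfl fun a _ => h2 a, Fin.sum_univ_eq_sum_range (fun i => m - 1 - i) m,
    Finset.sum_range_reflect (fun i => i) m]
  rw [mul_comm 2, Finset.sum_range_id_mul_two]

end DQ
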