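import Pool.Agent.helper62.DQ.CB

/-!
# From orthogonal matrices to the events
-/

set_option autoImplicit false
set_option linter.unusedSectionVars false

namespace DQ

open Matrix Finset DS

variable {V : Type*} [Fintype V] [DecidableEq V]

/-- The support of a column. -/
noncomputable def sp (Q : Matrix V V ℝ) (j : V) : Finset V := tS fun v => Q v j ≠ 0

theorem mem_sp (Q : Matrix V V ℝ) (j v : V) : v ∈ sp Q j ↔ Q v j ≠ 0 := by
  rw [sp, mem_tS]

/-- Orthonormal columns. -/
def On (Q : Matrix V V ℝ) : Prop := ∀ i j, ∑ v, Q v i * Q v j = if i = j then 1 else 0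

theorem On_of {Q : Matrix V V ℝ} (h : Qᵀ * Q = 1) : On Q := by
  intro i j
  have := congrFun (congrFun h i) j
  rw [Matrix.mul_apply, Matrix.one_apply] at this
  exact this

theorem On.sq {Q : Matrix V V ℝ} (h : On Q) (j : V) : ∑ v, Q v j ^ 2 = 1 := by
  have := h j j
  rw [if_pos rfl] at this
  rw [← this]
  exact Finset.sum_congr rfl fun v _ => by ring

theorem On.sp_nonempty {Q : Matrix V V ℝ} (h : On Q) (j : V) : (sp Q j).Nonempty := by
  by_contra hne
  rw [Finset.not_nonempty_iff_eq_empty] at hne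
  have h1 := h.sq j
  rw [Finset.sum_eq_zero] at h1
  · exact zero_ne_one h1
  · intro v _
    have : v ∉ sp Q j := by rw [hne]; exact notMem_empty v
    rw [mem_sp, not_not] at this
    rw [this]
    norm_num

/-- In a column with at least two nonzero entries all entries are less than one. -/
theorem On.lt_one {Q : Matrix V V ℝ} (h : On Q) {j : V} (hj : (sp Q j).card ≠ 1) (v : V) :
    |Q v j| < 1 := by
  classical
  by_cases hv : Q v j = 0
  · rw [hv, abs_zero]
    exact one_pos
  · have h2 : ∃ w, w ≠ v ∧ w ∈ sp Q j := by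
      by_contra hcon
      push Not at hcon
      apply hj
      rw [Finset.card_eq_one]
      refine ⟨v, ?_⟩
      ext w
      rw [mem_singleton]
      constructor
      · intro hw
        by_contra hne
        exact hcon w hne hw
      · rintro rfl
        rw [mem_sp]
        exact hv
    obtain ⟨w, hwv, hw⟩ := h2
    rw [mem_sp] at hw
    have h3 : Q v j ^ 2 + Q w j ^ 2 ≤ 1 := by
      rw [← h.sq j]
      have := Finset.sum_le_sum_of_subset_of_nonneg (subset_univ ({v, w} : Finset V))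
        (fun i _ _ => sq_nonneg (Q i j))
      rwa [Finset.sum_pair hwv.symm] at this
    have h4 : 0 < Q w j ^ 2 := by positivity
    rw [← sq_lt_one_iff_abs_lt_one]
    linarith

/-- The values of the form on two columns. -/
def Bin (A : Matrix V V F) (Q : Matrix V V ℝ) : Prop :=
  ∀ i j, QF A (fun v => Q v i) (fun v => Q v j) = 0 ∨ QF A (fun v => Q v i) (fun v => Q v j) = 1

/-- Unit columns and one other column. -/
theorem det_unit {A : Matrix V V F} {Q : Matrix V V ℝ} (h : On Q) (hb : Bin A Q) {j₀ : V}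
    (hj₀ : (sp Q j₀).card ≠ 1) :
    ∃ T : Finset V, T.card = (tS fun j => (sp Q j).card = 1).card ∧
      (∀ v ∈ T, Q v j₀ = 0) ∧ ∀ i ∈ T, Tri (rd A i fun v => Q v j₀) := by
  classical
  have h1 : ∀ j : V, ∃ v : V, (sp Q j).card = 1 → sp Q j = {v} := by
    intro j
    by_cases hj : (sp Q j).card = 1
    · obtain ⟨v, hv⟩ := Finset.card_eq_one.1 hj
      exact ⟨v, fun _ => hv⟩
    · exact ⟨j, fun h => absurd h hj⟩
  choose π hπ using h1
  have hval : ∀ j, (sp Q j).card = 1 → Q (π j) j ^ 2 = 1 ∧ ∀ v, v ≠ π j → Q v j = 0 := by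
    intro j hj
    have hz : ∀ v, v ≠ π j → Q v j = 0 := by
      intro v hv
      have : v ∉ sp Q j := by
        rw [hπ j hj, mem_singleton]
        exact hv
      rwa [mem_sp, not_not] at this
    refine ⟨?_, hz⟩
    rw [← h.sq j, Finset.sum_eq_single_of_mem (π j) (mem_univ _)]
    intro v _ hv
    rw [hz v hv]
    norm_num
  have hsum : ∀ j, (sp Q j).card = 1 → ∀ x : V → ℝ, ∑ v, Q v j * x v = Q (π j) j * x (π j) := by
    intro j hj x
    rw [Finset.sum_eq_single_of_mem (π j) (mem_univ _)]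
    intro v _ hv
    rw [(hval j hj).2 v hv, zero_mul]
  have hne : ∀ j, (sp Q j).card = 1 → Q (π j) j ≠ 0 := by
    intro j hj h0
    have := (hval j hj).1
    rw [h0] at this
    norm_num at this
  refine ⟨(tS fun j => (sp Q j).card = 1).image π, ?_, ?_, ?_⟩
  · rw [Finset.card_image_of_injOn]
    intro i hi j hj hij
    rw [mem_coe, mem_tS] at hi hj
    by_contra hne'
    have h2 := h i j
    rw [if_neg hne', hsum i hi] at h2
    rcases mul_eq_zero.1 h2 with h3 | h3
    · exact hne i hi h3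
    · rw [hij] at h3
      exact hne j hj h3
  · intro v hv
    rw [mem_image] at hv
    obtain ⟨j, hj, rfl⟩ := hv
    rw [mem_tS] at hj
    have h2 := h j j₀
    rw [if_neg (by rintro rfl; exact hj₀ hj), hsum j hj] at h2
    rcases mul_eq_zero.1 h2 with h3 | h3
    · exact absurd h3 (hne j hj)
    · exact h3
  · intro i hi
    rw [mem_image] at hi
    obtain ⟨j, hj, rfl⟩ := hi
    rw [mem_tS] at hj
    have h2 := hb j j₀
    have h3 : QF A (fun v => Q v j) (fun v => Q v j₀) =
        Q (π j) j * rd A (π j) fun v => Q v j₀ := by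
      rw [QF, rd]
      rw [← hsum j hj fun v => ∑ w, re (A v w) * Q w j₀]
      refine Finset.sum_congr rfl fun v _ => ?_
      rw [Finset.mul_sum]
      exact Finset.sum_congr rfl fun w _ => by ring
    rw [h3] at h2
    have h4 := (hval j hj).1
    have h5 : Q (π j) j = 1 ∨ Q (π j) j = -1 := mul_self_eq_one_iff.1 (by rw [← sq]; exact h4)
    rcases h5 with h5 | h5
    · rw [h5, one_mul] at h2
      rcases h2 with h2 | h2
      · exact Or.inr (Or.inl h2)
      · exact Or.inr (Or.inr h2)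
    · rw [h5] at h2
      rcases h2 with h2 | h2
      · exact Or.inr (Or.inl (by linarith))
      · exact Or.inl (by linarith)

/-- A small set of rows spanning all rows. -/
theorem exists_rows (A : Matrix V V F) (T : Finset V) :
    ∃ I : Finset V, I ⊆ T ∧ I.card + T.card ≤ Fintype.card V ∧
      ∀ x : V → ℝ, (∀ v ∈ T, x v = 0) → (∀ i ∈ I, rd A i x = 0) → ∀ i ∈ T, rd A i x = 0 := by
  classical
  let ρ : {i // i ∈ T} → ({v // v ∉ T} → ℝ) := fun i v => re (A i v)
  obtain ⟨κ, a, ha, hspan, hli⟩ := exists_linearIndependent' ℝ ρ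
  have hfin : Finite κ := Finite.of_injective a ha
  have hft : Fintype κ := Fintype.ofFinite κ
  refine ⟨univ.image fun c : κ => ((a c : {i // i ∈ T}) : V), ?_, ?_, ?_⟩
  · intro i hi
    rw [mem_image] at hi
    obtain ⟨c, -, rfl⟩ := hi
    exact (a c).2
  · have h1 : (univ.image fun c : κ => ((a c : {i // i ∈ T}) : V)).card ≤ Fintype.card κ := by
      refine Finset.card_image_le.trans ?_
      rw [Finset.card_univ]
    have h2 := hli.fintype_card_le_finrank
    rw [Module.finrank_fintype_fun_eq_card, Fintype.card_subtype_compl, Fintype.card_coe] at h2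
    have h3 := Finset.card_le_univ T
    omega
  · intro x hx hI i hi
    have hrd : ∀ i' : {i // i ∈ T}, rd A i' x = ∑ v, ρ i' v * x v := fun i' =>
      rd_restrict A i' hx
    have hmem : ρ ⟨i, hi⟩ ∈ Submodule.span ℝ (Set.range (ρ ∘ a)) := by
      rw [hspan]
      exact Submodule.subset_span ⟨_, rfl⟩
    have hall : ∀ y ∈ Submodule.span ℝ (Set.range (ρ ∘ a)), ∑ v, y v * x v = 0 := by
      intro y hy
      refine Submodule.span_induction (p := fun y _ => ∑ v : {v // v ∉ T}, y v * x v = 0)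
        ?_ ?_ ?_ ?_ hy
      · rintro _ ⟨c, rfl⟩
        rw [Function.comp_apply, ← hrd]
        exact hI _ (mem_image_of_mem _ (mem_univ c))
      · simp
      · intro y z _ _ h1 h2
        simp only [Pi.add_apply, add_mul, Finset.sum_add_distrib]
        rw [h1, h2, add_zero]
      · intro r y _ h1
        simp only [Pi.smul_apply, smul_eq_mul, mul_assoc]
        rw [← Finset.mul_sum, h1, mul_zero]
    have h1 := hall _ hmem
    rw [← hrd ⟨i, hi⟩] at h1
    exact h1

/-- The first alternative for many unit columns. -/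
theorem det_case {A : Matrix V V F} {Q : Matrix V V ℝ} (h : On Q) (hb : Bin A Q) {j₀ : V}
    (hj₀ : (sp Q j₀).card ≠ 1) (j : ℕ) :
    (∃ T I : Finset V, ∃ b : V → ℝ, T.card = (tS fun j => (sp Q j).card = 1).card ∧ I ⊆ T ∧
      I.card + T.card ≤ Fintype.card V ∧ (∀ i, Tri (b i)) ∧ EvD T I b j A) ∨
    (∃ T : Finset V, (∃ v, v ∉ T) ∧ Fintype.card V ≤ T.card + 4 * j ∧
      EvS T (tS fun j => (sp Q j).card = 1).card A) := by
  classical
  obtain ⟨T, hT1, hT2, hT3⟩ := det_unit h hb hj₀
  rcases Nat.lt_or_ge (4 * j) (sp Q j₀).card with hlt | hge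
  · left
    obtain ⟨I, hI1, hI2, hI3⟩ := exists_rows A T
    refine ⟨T, I, fun i => if i ∈ T then rd A i fun v => Q v j₀ else 0, hT1, hI1, hI2, ?_, ?_⟩
    · intro i
      dsimp only
      split_ifs with hi
      · exact hT3 i hi
      · exact Or.inr (Or.inl rfl)
    · refine ⟨fun v => Q v j₀, hT2, ?_, ?_, hT3, hI3⟩
      · exact hlt
      · intro i hi
        dsimp only
        rw [if_pos (hI1 hi)]
  · right
    refine ⟨(sp Q j₀)ᶜ, ?_, ?_, ?_⟩
    · obtain ⟨v, hv⟩ := h.sp_nonempty j₀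
      exact ⟨v, by rw [mem_compl, not_not]; exact hv⟩
    · rw [Finset.card_compl]
      omega
    · refine ⟨fun v => Q v j₀, ?_, ?_, ?_⟩
      · intro v hv
        rw [mem_compl, mem_sp, not_not] at hv
        exact hv
      · intro v hv
        rw [mem_compl, not_not, mem_sp] at hv
        exact ⟨hv, h.lt_one hj₀ v⟩
      · rw [← hT1]
        have hsub : ∀ i ∈ T, i ∈ (sp Q j₀)ᶜ := by
          intro i hi
          rw [mem_compl, mem_sp, not_not]
          exact hT2 i hi
        refine Finset.card_le_card_of_surjOn (fun i : {i // i ∈ (sp Q j₀)ᶜ} => (i : V)) ?_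
        intro i hi
        rw [mem_coe] at hi
        exact ⟨⟨i, hsub i hi⟩, by rw [mem_coe, mem_tS]; exact hT3 i hi, rfl⟩

/-- A minimal family of columns covering the rows of a family. -/
theorem exists_cover (Q : Matrix V V ℝ) (N : Finset V) :
    ∃ 𝒜 : Finset V, 𝒜 ⊆ N ∧ 𝒜.biUnion (sp Q) = N.biUnion (sp Q) ∧
      ∀ a ∈ 𝒜, ∃ u ∈ sp Q a, ∀ b ∈ 𝒜, b ≠ a → u ∉ sp Q b := by
  classical
  obtain ⟨𝒜, h𝒜, hmin⟩ := Finset.exists_min_image
    (N.powerset.filter fun 𝒜 => 𝒜.biUnion (sp Q) = N.biUnion (sp Q)) (fun 𝒜 => 𝒜.card)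
    ⟨N, mem_filter.2 ⟨mem_powerset.2 (Finset.Subset.refl N), rfl⟩⟩
  rw [mem_filter, mem_powerset] at h𝒜
  refine ⟨𝒜, h𝒜.1, h𝒜.2, fun a ha => ?_⟩
  by_contra hcon
  push Not at hcon
  have hle := hmin (𝒜.erase a) (by
    rw [mem_filter, mem_powerset]
    refine ⟨(Finset.erase_subset a 𝒜).trans h𝒜.1, ?_⟩
    rw [← h𝒜.2]
    refine Finset.Subset.antisymm ?_ ?_
    · exact Finset.biUnion_subset_biUnion_of_subset_left _ (Finset.erase_subset a 𝒜)
    · intro v hv
      rw [mem_biUnion] at hv ⊢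
      obtain ⟨b, hb, hvb⟩ := hv
      by_cases hba : b = a
      · subst hba
        obtain ⟨c, hc, hca, hvc⟩ := hcon v hvb
        exact ⟨c, mem_erase.2 ⟨hca, hc⟩, hvc⟩
      · exact ⟨b, mem_erase.2 ⟨hba, hb⟩, hvb⟩)
  have := Finset.card_erase_lt_of_mem ha
  omega

theorem card_le_cover {Q : Matrix V V ℝ} (h : On Q) (N : Finset V) :
    N.card ≤ (N.biUnion (sp Q)).card := by
  classical
  have hli : LinearIndependent ℝ
      (fun (j : {j // j ∈ N}) (v : {v // v ∈ N.biUnion (sp Q)}) => Q v j) := by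
    rw [linearIndependent_iff']
    intro s c hc j₀ hj₀
    have h1 : ∀ v, ∑ j ∈ s, c j * Q v j = 0 := by
      intro v
      by_cases hv : v ∈ N.biUnion (sp Q)
      · have := congrFun hc ⟨v, hv⟩
        simpa only [Finset.sum_apply, Pi.smul_apply, smul_eq_mul, Pi.zero_apply] using this
      · refine Finset.sum_eq_zero fun j _ => ?_
        have : v ∉ sp Q j := fun h2 => hv (mem_biUnion.2 ⟨j, j.2, h2⟩)
        rw [mem_sp, not_not] at this
        rw [this, mul_zero]
    have h2 : ∑ v, (∑ j ∈ s, c j * Q v j) * Q v j₀ = 0 :=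
      Finset.sum_eq_zero fun v _ => by rw [h1, zero_mul]
    have h3 : ∑ v, (∑ j ∈ s, c j * Q v j) * Q v j₀ = ∑ j ∈ s, c j * ∑ v, Q v j * Q v j₀ := by
      simp only [Finset.sum_mul, Finset.mul_sum]
      rw [Finset.sum_comm]
      exact Finset.sum_congr rfl fun j _ => Finset.sum_congr rfl fun v _ => by ring
    rw [h3, Finset.sum_eq_single_of_mem j₀ hj₀] at h2
    · rw [h j₀ j₀, if_pos rfl, mul_one] at h2
      exact h2
    · intro j _ hj
      rw [h j j₀, if_neg, mul_zero]
      exact fun h4 => hj (Subtype.ext h4)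
  have := hli.fintype_card_le_finrank
  rw [Module.finrank_fintype_fun_eq_card, Fintype.card_coe, Fintype.card_coe] at this
  exact this

theorem exists_enum (S : Finset V) (k : ℕ) (hk : S.card ≤ k) (v₀ : V) :
    ∃ f : Fin k → V, ∀ v ∈ S, ∃ i, f i = v := by
  classical
  refine ⟨fun i => if h : (i : ℕ) < S.card then (S.equivFin.symm ⟨i, h⟩ : V) else v₀, ?_⟩
  intro v hv
  have h1 := (S.equivFin ⟨v, hv⟩).2
  refine ⟨⟨S.equivFin ⟨v, hv⟩, lt_of_lt_of_le h1 hk⟩, ?_⟩
  dsimp only
  rw [dif_pos h1]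
  simp

/-- Many sparse columns. -/
theorem det_sparse {A : Matrix V V F} {Q : Matrix V V ℝ} (h : On Q) (hb : Bin A Q) (m k : ℕ)
    (hk : 1 ≤ k)
    (hN : k * m ≤ (tS fun j => 2 ≤ (sp Q j).card ∧ (sp Q j).card ≤ k).card) :
    ∃ (u : Fin m → V) (σ : Fin m → Fin k → V), EvP m k u σ A := by
  classical
  set N := tS fun j => 2 ≤ (sp Q j).card ∧ (sp Q j).card ≤ k with hNdef
  obtain ⟨𝒜, hsub, hcov, hpriv⟩ := exists_cover Q N
  have h1 : ∀ a ∈ 𝒜, 2 ≤ (sp Q a).card ∧ (sp Q a).card ≤ k := by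
    intro a ha
    have := hsub ha
    rw [hNdef, mem_tS] at this
    exact this
  have h2 : (N.biUnion (sp Q)).card ≤ k * 𝒜.card := by
    rw [← hcov]
    refine Finset.card_biUnion_le.trans ?_
    refine (Finset.sum_le_card_nsmul _ _ k fun a ha => (h1 a ha).2).trans ?_
    rw [smul_eq_mul, mul_comm]
  have h3 : m ≤ 𝒜.card := by
    have h4 : k * m ≤ k * 𝒜.card := hN.trans ((card_le_cover h N).trans h2)
    exact Nat.le_of_mul_le_mul_left h4 hk
  obtain ⟨e⟩ := Function.Embedding.nonempty_of_card_le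
    (α := Fin m) (β := {a // a ∈ 𝒜}) (by rw [Fintype.card_fin, Fintype.card_coe]; exact h3)
  choose! u hu1 hu2 using hpriv
  have hex : ∀ a : Fin m, ∃ f : Fin k → V, ∀ v ∈ sp Q (e a), ∃ i, f i = v := fun a =>
    exists_enum _ k (h1 _ (e a).2).2 (e a)
  choose σ hσ using hex
  refine ⟨fun a => u (e a), σ, fun a v => Q v (e a), ?_, ?_, ?_, ?_⟩
  · intro a v hv
    by_contra hne
    obtain ⟨i, hi⟩ := hσ a v ((mem_sp _ _ _).2 hne)
    exact hv i hi
  · intro a
    refine ⟨(mem_sp _ _ _).1 (hu1 _ (e a).2), ?_⟩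
    refine h.lt_one ?_ _
    have := (h1 _ (e a).2).1
    omega
  · intro a b hab
    have h4 := hu2 _ (e b).2 _ (e a).2 (by
      intro h5
      exact hab (e.injective (Subtype.ext h5)))
    rw [mem_sp, not_not] at h4
    exact h4
  · intro a b _
    exact hb (e a) (e b)

end DQ
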