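import Pool.Agent.helper62.DQ.Pr

/-!
# The theorem on orthogonal similarities
-/

set_option autoImplicit false
set_option linter.unusedSectionVars false

namespace DQ

open Matrix Finset DS Filter Topology

/-- A graph outside of the exceptional events. -/
def Good (ε : ℝ) (j n : ℕ) (G : SimpleGraph (Fin n)) : Prop :=
  ¬ (Bad1 ε j n (toM G) ∨ Bad2 ε j n (toM G) ∨ Bad3 n (toM G))

open scoped Classical in
theorem QF_eq {n : ℕ} (G : SimpleGraph (Fin n)) (Q : Matrix (Fin n) (Fin n) ℝ) (i j : Fin n) :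
    QF (toM G) (fun v => Q v i) (fun v => Q v j) = (Qᵀ * G.adjMatrix ℝ * Q) i j := by
  rw [Matrix.mul_assoc, Matrix.mul_apply, QF]
  refine Finset.sum_congr rfl fun v _ => ?_
  rw [Matrix.mul_apply, Matrix.transpose_apply, Finset.mul_sum]
  refine Finset.sum_congr rfl fun w _ => ?_
  rw [toM_re]
  ring

open scoped Classical in
theorem Bin_of {n : ℕ} {G H : SimpleGraph (Fin n)} {Q : Matrix (Fin n) (Fin n) ℝ}
    (h : Qᵀ * G.adjMatrix ℝ * Q = H.adjMatrix ℝ) : Bin (toM G) Q := by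
  intro i j
  rw [QF_eq, h, SimpleGraph.adjMatrix_apply]
  split_ifs
  · exact Or.inr rfl
  · exact Or.inl rfl

open scoped Classical in
/-- When all columns are unit columns the graphs are isomorphic. -/
theorem iso_of_unit {n : ℕ} {G H : SimpleGraph (Fin n)} {Q : Matrix (Fin n) (Fin n) ℝ}
    (hQ : On Q) (h : Qᵀ * G.adjMatrix ℝ * Q = H.adjMatrix ℝ)
    (hu : ∀ j, (sp Q j).card = 1) : Nonempty (G ≃g H) := by
  have h1 : ∀ j : Fin n, ∃ v : Fin n, sp Q j = {v} := fun j => Finset.card_eq_one.1 (hu j)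
  choose π hπ using h1
  have hz : ∀ j v, v ≠ π j → Q v j = 0 := by
    intro j v hv
    have : v ∉ sp Q j := by
      rw [hπ j, mem_singleton]
      exact hv
    rwa [mem_sp, not_not] at this
  have hne : ∀ j, Q (π j) j ≠ 0 := by
    intro j
    have : π j ∈ sp Q j := by
      rw [hπ j]
      exact mem_singleton_self _
    rwa [mem_sp] at this
  have hsum : ∀ j, ∀ x : Fin n → ℝ, ∑ v, Q v j * x v = Q (π j) j * x (π j) := by
    intro j x
    rw [Finset.sum_eq_single_of_mem (π j) (mem_univ _)]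
    intro v _ hv
    rw [hz j v hv, zero_mul]
  have hinj : Function.Injective π := by
    intro i j hij
    by_contra hne'
    have h2 := hQ i j
    rw [if_neg hne', hsum i] at h2
    rcases mul_eq_zero.1 h2 with h3 | h3
    · exact hne i h3
    · rw [hij] at h3
      exact hne j h3
  have hadj : ∀ i j, H.Adj i j ↔ G.Adj (π i) (π j) := by
    intro i j
    have h2 : (Qᵀ * G.adjMatrix ℝ * Q) i j =
        Q (π i) i * (Q (π j) j * G.adjMatrix ℝ (π i) (π j)) := by
      rw [Matrix.mul_assoc, Matrix.mul_apply]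
      simp only [Matrix.transpose_apply]
      rw [hsum i, Matrix.mul_apply]
      congr 1
      rw [← hsum j fun w => G.adjMatrix ℝ (π i) w]
      exact Finset.sum_congr rfl fun w _ => mul_comm _ _
    rw [h, SimpleGraph.adjMatrix_apply, SimpleGraph.adjMatrix_apply] at h2
    by_cases hH : H.Adj i j <;> by_cases hG : G.Adj (π i) (π j)
    · exact ⟨fun _ => hG, fun _ => hH⟩
    · rw [if_pos hH, if_neg hG, mul_zero, mul_zero] at h2
      exact absurd h2 one_ne_zero
    · rw [if_neg hH, if_pos hG, mul_one] at h2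
      exact absurd h2.symm (mul_ne_zero (hne i) (hne j))
    · exact ⟨fun h => absurd h hH, fun h => absurd h hG⟩
  have hbij : Function.Bijective π := Finite.injective_iff_bijective.1 hinj
  refine ⟨(RelIso.symm ⟨Equiv.ofBijective π hbij, ?_⟩ : G ≃g H)⟩
  intro a b
  exact (hadj a b).symm

/-- The conclusion for one graph. -/
def Concl (ε : ℝ) (n : ℕ) (G : SimpleGraph (Fin n)) : Prop :=
  ∀ (Q : Matrix (Fin n) (Fin n) ℝ), On Q → Bin (toM G) Q →
    (¬ (∀ j, (sp Q j).card = 1) →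
      ((tS fun j => (sp Q j).card = 1).card : ℝ) ≤ (1 / 2 + ε) * n) ∧
    ∀ k : ℕ, ((tS fun j => 2 ≤ (sp Q j).card ∧ (sp Q j).card ≤ k).card : ℝ) ≤
      20 * (k : ℝ) ^ 2 * Real.logb 2 n

theorem Concl_of_Good {ε : ℝ} {j n : ℕ} (hn : 2 ≤ n) {G : SimpleGraph (Fin n)}
    (hG : Good ε j n G) : Concl ε n G := by
  classical
  intro Q hQ hb
  rw [Good, not_or, not_or] at hG
  obtain ⟨hG1, hG2, hG3⟩ := hG
  constructor
  · intro hnu
    push Not at hnu
    obtain ⟨j₀, hj₀⟩ := hnu
    by_contra hcon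
    push Not at hcon
    rcases det_case hQ hb hj₀ j with ⟨T, I, b, h1, h2, h3, h4, h5⟩ | ⟨T, h1, h2, h3⟩
    · refine hG1 ⟨T, I, b, ?_, h2, ?_, h4, h5⟩
      · rw [h1]
        exact hcon
      · rwa [Fintype.card_fin] at h3
    · refine hG2 ⟨T, _, h1, ?_, hcon, h3⟩
      rwa [Fintype.card_fin] at h2
  · intro k
    have hn2 : (2 : ℝ) ≤ n := by exact_mod_cast hn
    have hlog1 : 1 ≤ Real.logb 2 (n : ℝ) := by
      rw [Real.le_logb_iff_rpow_le (by norm_num) (by linarith), Real.rpow_one]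
      exact hn2
    have hlogL : ((Nat.log 2 n + 1 : ℕ) : ℝ) ≤ 2 * Real.logb 2 n := by
      have h1 : (Nat.log 2 n : ℝ) ≤ Real.logb 2 n := by
        have := Real.natLog_le_logb n 2
        exact_mod_cast this
      push_cast
      linarith
    rcases Nat.eq_zero_or_pos k with rfl | hk
    · have h0 : (tS fun j => 2 ≤ (sp Q j).card ∧ (sp Q j).card ≤ 0).card = 0 := by
        rw [card_eq_zero, Finset.eq_empty_iff_forall_notMem]
        intro i hi
        rw [mem_tS] at hi
        omega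
      rw [h0, Nat.cast_zero]
      positivity
    · have hkR : (1 : ℝ) ≤ k := by exact_mod_cast hk
      set N := (tS fun j => 2 ≤ (sp Q j).card ∧ (sp Q j).card ≤ k).card with hN
      have hNn : N ≤ n := by
        have := Finset.card_le_univ (tS fun j => 2 ≤ (sp Q j).card ∧ (sp Q j).card ≤ k)
        rwa [Fintype.card_fin] at this
      have hmain : N ≤ k * (10 * k * (Nat.log 2 n + 1)) := by
        by_contra hcon
        push Not at hcon
        have hle : 10 * k * (Nat.log 2 n + 1) ≤ k * (10 * k * (Nat.log 2 n + 1)) :=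
          Nat.le_mul_of_pos_left _ hk
        have hkn : k ≤ 10 * k * (Nat.log 2 n + 1) := by nlinarith
        obtain ⟨u, σ, h⟩ := det_sparse hQ hb (10 * k * (Nat.log 2 n + 1)) k hk hcon.le
        exact hG3 ⟨k, hk, by omega, by omega, u, σ, h⟩
      have h2 : (N : ℝ) ≤ k * (10 * k * ((Nat.log 2 n + 1 : ℕ) : ℝ)) := by
        exact_mod_cast hmain
      refine h2.trans ?_
      have h3 : (k : ℝ) * (10 * k * ((Nat.log 2 n + 1 : ℕ) : ℝ)) ≤
          k * (10 * k * (2 * Real.logb 2 n)) := by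
        refine mul_le_mul_of_nonneg_left ?_ (by positivity)
        exact mul_le_mul_of_nonneg_left hlogL (by positivity)
      refine h3.trans (le_of_eq ?_)
      ring

theorem bad_fraction {ε : ℝ} (hε : 0 < ε) : ∃ j : ℕ, Tendsto (fun n : ℕ =>
    (Nat.card {G : SimpleGraph (Fin n) // ¬ Good ε j n G} : ℝ) / Nat.card (SimpleGraph (Fin n)))
    atTop (𝓝 0) := by
  classical
  obtain ⟨j, hj⟩ := exists_small_prop ((1 / 24 : ℝ) ^ (1 / (2 * ε))) (by positivity)
  refine ⟨j, ?_⟩
  have hj' : eta j ≤ (1 / 24 : ℝ) ^ (1 / (2 * ε)) := hj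
  have hr0 : 0 ≤ rate ε := by
    rw [rate]
    positivity
  have hr1 := rate_lt_one hε
  have lim1 : Tendsto (fun n : ℕ => ((1 : ℝ) / 2) ^ n) atTop (𝓝 0) :=
    tendsto_pow_atTop_nhds_zero_of_lt_one (by norm_num) (by norm_num)
  have lim2 : Tendsto (fun n : ℕ => ((4 * (j : ℝ) + 1) * (n + 1) ^ (4 * j)) *
      (3 * 2 ^ (4 * j) + 1) ^ (4 * j) * rate ε ^ n) atTop (𝓝 0) := by
    have h1 : Tendsto (fun n : ℕ => ((n : ℝ) + 1) ^ (4 * j) * rate ε ^ n) atTop (𝓝 0) := by
      have h2 := tendsto_pow_const_mul_const_pow_of_lt_one (4 * j) hr0 hr1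
      have h3 : Tendsto (fun n : ℕ => (2 : ℝ) ^ (4 * j) * ((n : ℝ) ^ (4 * j) * rate ε ^ n))
          atTop (𝓝 0) := by
        have := h2.const_mul ((2 : ℝ) ^ (4 * j))
        rwa [mul_zero] at this
      refine squeeze_zero' (Eventually.of_forall fun n => by positivity) ?_ h3
      filter_upwards [eventually_ge_atTop 1] with n hn
      have hn1 : (1 : ℝ) ≤ n := by exact_mod_cast hn
      rw [← mul_assoc, ← mul_pow]
      refine mul_le_mul_of_nonneg_right ?_ (pow_nonneg hr0 n)
      exact pow_le_pow_left₀ (by positivity) (by linarith) _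
    have h4 := h1.const_mul ((4 * (j : ℝ) + 1) * (3 * 2 ^ (4 * j) + 1) ^ (4 * j))
    rw [mul_zero] at h4
    refine h4.congr fun n => ?_
    ring
  have lim3 : Tendsto (fun n : ℕ => (1 : ℝ) / n) atTop (𝓝 0) := tendsto_one_div_atTop_nhds_zero_nat
  have lim := (lim1.add lim2).add lim3
  rw [add_zero, add_zero] at lim
  refine squeeze_zero' (Eventually.of_forall fun n => by positivity) ?_ lim
  filter_upwards [eventually_ge_atTop 1] with n hn
  have hn0 : (0 : ℝ) < n := by exact_mod_cast hn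
  have hal := al_pos n
  have hcard : (Nat.card (SimpleGraph (Fin n)) : ℝ) = al n := by
    rw [al, card_alt_eq]
  have h1 : Nat.card {G : SimpleGraph (Fin n) // ¬ Good ε j n G} ≤
      cn (fun A => Bad1 ε j n A ∨ Bad2 ε j n A ∨ Bad3 n A) := by
    refine natcard_le _ _ toM toM_inj fun G hG => ?_
    rw [mem_cS]
    refine ⟨toM_alt G, ?_⟩
    rw [Good, not_not] at hG
    exact hG
  have h2 : cn (fun A => Bad1 ε j n A ∨ Bad2 ε j n A ∨ Bad3 n A) ≤
      cn (Bad1 ε j n) + (cn (Bad2 ε j n) + cn (Bad3 n)) :=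
    (cn_or _ _).trans (Nat.add_le_add_left (cn_or _ _) _)
  have h3 : (Nat.card {G : SimpleGraph (Fin n) // ¬ Good ε j n G} : ℝ) ≤
      cn (Bad1 ε j n) + (cn (Bad2 ε j n) + cn (Bad3 n)) := by exact_mod_cast h1.trans h2
  have b1 := Bad1_bound hε hj' n
  have b2 := Bad2_bound hε j n
  have b3 := Bad3_bound n
  rw [hcard, div_le_iff₀ hal]
  have b3' : (cn (Bad3 n) : ℝ) ≤ 1 / n * al n := by
    rw [one_div_mul_eq_div, le_div_iff₀ hn0]
    exact b3
  refine h3.trans ?_
  rw [add_mul, add_mul]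
  linarith

open scoped Classical in
/-- The final property of a graph. -/
def FinP (ε : ℝ) (n : ℕ) (G : SimpleGraph (Fin n)) : Prop :=
  ∀ (H : SimpleGraph (Fin n)) (Q : Matrix (Fin n) (Fin n) ℝ), ¬ Nonempty (G ≃g H) →
    Qᵀ * Q = 1 → Qᵀ * G.adjMatrix ℝ * Q = H.adjMatrix ℝ →
    ∀ k : ℕ, ({j | {i | Q i j ≠ 0}.ncard ≤ k}.ncard : ℝ) ≤
      (1 / 2 + ε) * n + 20 * (k : ℝ) ^ 2 * Real.logb 2 n

theorem FinP_of_Good {ε : ℝ} {j n : ℕ} (hn : 2 ≤ n) {G : SimpleGraph (Fin n)}
    (hG : Good ε j n G) : FinP ε n G := by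
  classical
  intro H Q hiso hQ h k
  have hOn := On_of hQ
  have hc := Concl_of_Good hn hG Q hOn (Bin_of h)
  have hnu : ¬ (∀ j, (sp Q j).card = 1) := fun hu => hiso (iso_of_unit hOn h hu)
  have h1 := hc.1 hnu
  have h2 := hc.2 k
  have hsp : ∀ j, {i | Q i j ≠ 0}.ncard = (sp Q j).card := by
    intro j
    rw [← Set.ncard_coe_finset]
    congr 1
    ext i
    rw [mem_coe, mem_sp]
    rfl
  have hset : {j | {i | Q i j ≠ 0}.ncard ≤ k} ⊆
      (((tS fun j => (sp Q j).card = 1) ∪ (tS fun j => 2 ≤ (sp Q j).card ∧ (sp Q j).card ≤ k) :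
        Finset (Fin n)) : Set (Fin n)) := by
    intro j hj
    have hj' : {i | Q i j ≠ 0}.ncard ≤ k := hj
    rw [hsp] at hj'
    rw [mem_coe, mem_union, mem_tS, mem_tS]
    have hpos : 0 < (sp Q j).card := card_pos.2 (hOn.sp_nonempty j)
    by_cases h3 : (sp Q j).card = 1
    · exact Or.inl h3
    · exact Or.inr ⟨by omega, hj'⟩
  have h3 := Set.ncard_le_ncard hset (Finset.finite_toSet _)
  rw [Set.ncard_coe_finset] at h3
  have h4 : ({j | {i | Q i j ≠ 0}.ncard ≤ k}.ncard : ℝ) ≤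
      (tS fun j => (sp Q j).card = 1).card +
      (tS fun j => 2 ≤ (sp Q j).card ∧ (sp Q j).card ≤ k).card := by
    exact_mod_cast h3.trans (Finset.card_union_le _ _)
  linarith

theorem tendsto_FinP {ε : ℝ} (hε : 0 < ε) : Tendsto (fun n : ℕ =>
    (Nat.card {G : SimpleGraph (Fin n) // FinP ε n G} : ℝ) / Nat.card (SimpleGraph (Fin n)))
    atTop (𝓝 1) := by
  classical
  obtain ⟨j, hj⟩ := bad_fraction hε
  have h1 : Tendsto (fun n : ℕ => 1 -
      (Nat.card {G : SimpleGraph (Fin n) // ¬ Good ε j n G} : ℝ) /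
        Nat.card (SimpleGraph (Fin n))) atTop (𝓝 1) := by
    have := hj.const_sub 1
    rwa [sub_zero] at this
  refine tendsto_of_tendsto_of_tendsto_of_le_of_le' h1 tendsto_const_nhds ?_ ?_
  · filter_upwards [eventually_ge_atTop 2] with n hn
    have hcard : (0 : ℝ) < Nat.card (SimpleGraph (Fin n)) := by
      exact_mod_cast Nat.card_pos
    rw [sub_le_iff_le_add, ← add_div, one_le_div hcard]
    have h2 : Nat.card (SimpleGraph (Fin n)) ≤
        Nat.card {G : SimpleGraph (Fin n) // FinP ε n G} +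
        Nat.card {G : SimpleGraph (Fin n) // ¬ Good ε j n G} := by
      rw [Nat.card_eq_fintype_card, Nat.card_eq_fintype_card, Nat.card_eq_fintype_card,
        Fintype.card_subtype, Fintype.card_subtype, ← Finset.card_univ]
      refine le_trans (Finset.card_le_card ?_) (Finset.card_union_le _ _)
      intro G _
      rw [mem_union, mem_filter, mem_filter]
      by_cases hG : Good ε j n G
      · exact Or.inl ⟨mem_univ _, FinP_of_Good hn hG⟩
      · exact Or.inr ⟨mem_univ _, hG⟩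
    exact_mod_cast h2
  · refine Eventually.of_forall fun n => ?_
    refine div_le_one_of_le₀ ?_ (Nat.cast_nonneg _)
    have := Finite.card_subtype_le (fun G : SimpleGraph (Fin n) => FinP ε n G)
    exact_mod_cast this

end DQ
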