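import Pool.Agent.helper62.DQ.Av

/-!
# A Littlewood Offord bound
-/

set_option autoImplicit false
set_option linter.unusedSectionVars false

namespace DQ

open Matrix Finset DS

theorem re_eq_of {x y : F} (h : x = 1 ↔ y = 1) : x = y := by
  revert x y
  decide

theorem antichain_card {P : Type*} [Fintype P] [DecidableEq P] (x : P → ℝ)
    (hx : (∀ v, 0 < x v) ∨ (∀ v, x v < 0)) (c : ℝ) (𝒜 : Finset (Finset P))
    (h𝒜 : ∀ s ∈ 𝒜, ∑ v ∈ s, x v = c) :
    𝒜.card ≤ (Fintype.card P).choose (Fintype.card P / 2) := by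
  refine IsAntichain.sperner ?_
  intro s hs t ht hst hsub
  rw [mem_coe] at hs ht
  have h1 := h𝒜 s hs
  have h2 := h𝒜 t ht
  have h3 : ∑ v ∈ t \ s, x v = 0 := by
    have := Finset.sum_sdiff hsub (f := x)
    linarith
  have hne : (t \ s).Nonempty := by
    rw [Finset.sdiff_nonempty]
    intro h4
    exact hst (Finset.Subset.antisymm hsub h4)
  rcases hx with hx | hx
  · have := Finset.sum_pos (fun v _ => hx v) hne
    linarith
  · have := Finset.sum_neg (fun v _ => hx v) hne
    linarith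

theorem lo {R : Type*} [Fintype R] [DecidableEq R] (x : R → ℝ) (P : Finset R) (j : ℕ)
    (hP : P.card = 2 * j) (hx : (∀ v ∈ P, 0 < x v) ∨ (∀ v ∈ P, x v < 0)) (c : ℝ) :
    ct (fun a : R → F => ∑ v, re (a v) * x v = c) * 4 ^ j ≤
      Nat.centralBinom j * 2 ^ Fintype.card R := by
  classical
  have h := Finset.card_le_mul_card_image
    (f := fun (a : R → F) (v : {v // v ∉ P}) => a v)
    (tS fun a : R → F => ∑ v, re (a v) * x v = c) (Nat.centralBinom j) ?_
  · have h1 : ((tS fun a : R → F => ∑ v, re (a v) * x v = c).image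
        fun (a : R → F) (v : {v // v ∉ P}) => a v).card ≤ 2 ^ (Fintype.card R - 2 * j) := by
      refine (Finset.card_le_univ _).trans ?_
      rw [card_fun]
      refine Nat.pow_le_pow_right (by norm_num) ?_
      rw [Fintype.card_subtype_compl, Fintype.card_coe, hP]
    have hle : 2 * j ≤ Fintype.card R := by
      rw [← hP]
      exact Finset.card_le_univ P
    have h2 : 2 ^ (Fintype.card R - 2 * j) * 4 ^ j = 2 ^ Fintype.card R := by
      have : (4 : ℕ) = 2 ^ 2 := by norm_num
      rw [this, ← pow_mul, ← pow_add]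
      congr 1
      omega
    calc ct (fun a : R → F => ∑ v, re (a v) * x v = c) * 4 ^ j
        ≤ (Nat.centralBinom j * 2 ^ (Fintype.card R - 2 * j)) * 4 ^ j :=
          Nat.mul_le_mul_right _ (h.trans (Nat.mul_le_mul_left _ h1))
      _ = Nat.centralBinom j * (2 ^ (Fintype.card R - 2 * j) * 4 ^ j) := by ring
      _ = _ := by rw [h2]
  · intro o ho
    rw [mem_image] at ho
    obtain ⟨a₀, ha₀, rfl⟩ := ho
    have hsplit : ∀ a : R → F, (∀ v : {v // v ∉ P}, a v = a₀ v) → ∑ v, re (a v) * x v = c →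
        ∑ v ∈ (univ.filter fun v : {v // v ∈ P} => a v = 1), x v =
          c - ∑ v ∈ Pᶜ, re (a₀ v) * x v := by
      intro a ha hc
      have e1 : ∑ v, re (a v) * x v = ∑ v ∈ P, re (a v) * x v + ∑ v ∈ Pᶜ, re (a v) * x v :=
        (Finset.sum_add_sum_compl P _).symm
      have e2 : ∑ v ∈ Pᶜ, re (a v) * x v = ∑ v ∈ Pᶜ, re (a₀ v) * x v := by
        refine Finset.sum_congr rfl fun v hv => ?_
        rw [ha ⟨v, mem_compl.1 hv⟩]
      have e3 : ∑ v ∈ P, re (a v) * x v =
          ∑ v ∈ (univ.filter fun v : {v // v ∈ P} => a v = 1), x v := by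
        rw [← Finset.sum_coe_sort P, Finset.sum_filter]
        refine Finset.sum_congr rfl fun v _ => ?_
        rw [re]
        split_ifs <;> simp
      rw [← e3, ← e2]
      linarith
    have hcard : ((tS fun a : R → F => ∑ v, re (a v) * x v = c).filter fun a =>
        (fun v : {v // v ∉ P} => a v) = fun v : {v // v ∉ P} => a₀ v).card ≤
        (((tS fun a : R → F => ∑ v, re (a v) * x v = c).filter fun a =>
        (fun v : {v // v ∉ P} => a v) = fun v : {v // v ∉ P} => a₀ v).image fun a =>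
          univ.filter fun v : {v // v ∈ P} => a v = 1).card := by
      rw [Finset.card_image_of_injOn]
      intro a ha a' ha' he
      rw [mem_coe, mem_filter] at ha ha'
      dsimp only at he
      funext v
      by_cases hv : v ∈ P
      · have := Finset.ext_iff.1 he ⟨v, hv⟩
        rw [mem_filter, mem_filter] at this
        refine re_eq_of ⟨fun h1 => ?_, fun h1 => ?_⟩
        · exact (this.1 ⟨mem_univ _, h1⟩).2
        · exact (this.2 ⟨mem_univ _, h1⟩).2
      · exact (congrFun ha.2 ⟨v, hv⟩).trans (congrFun ha'.2 ⟨v, hv⟩).symm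
    refine hcard.trans ?_
    have h3 := antichain_card (P := {v // v ∈ P}) (fun v => x v)
      (by
        rcases hx with hx | hx
        · exact Or.inl fun v => hx v v.2
        · exact Or.inr fun v => hx v v.2)
      (c - ∑ v ∈ Pᶜ, re (a₀ v) * x v)
      (((tS fun a : R → F => ∑ v, re (a v) * x v = c).filter fun a =>
        (fun v : {v // v ∉ P} => a v) = fun v : {v // v ∉ P} => a₀ v).image fun a =>
          univ.filter fun v : {v // v ∈ P} => a v = 1) (by
        intro s hs
        rw [mem_image] at hs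
        obtain ⟨a, ha, rfl⟩ := hs
        rw [mem_filter, mem_tS] at ha
        exact hsplit a (fun v => congrFun ha.2 v) ha.1)
    rw [Fintype.card_coe, hP] at h3
    have e : 2 * j / 2 = j := by omega
    rw [e] at h3
    rw [Nat.centralBinom_eq_two_mul_choose]
    exact h3

theorem centralBinom_sq (j : ℕ) : Nat.centralBinom j ^ 2 * (2 * j + 1) ≤ 16 ^ j := by
  induction j with
  | zero => simp
  | succ j ih =>
    have h := Nat.succ_mul_centralBinom_succ j
    have h2 : ((j + 1) * Nat.centralBinom (j + 1)) ^ 2 * (2 * (j + 1) + 1) ≤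
        (j + 1) ^ 2 * 16 ^ (j + 1) := by
      rw [h]
      calc (2 * (2 * j + 1) * j.centralBinom) ^ 2 * (2 * (j + 1) + 1)
          = (j.centralBinom ^ 2 * (2 * j + 1)) * (4 * ((2 * j + 1) * (2 * j + 3))) := by ring
        _ ≤ 16 ^ j * (4 * ((2 * j + 1) * (2 * j + 3))) := Nat.mul_le_mul_right _ ih
        _ ≤ 16 ^ j * (16 * (j + 1) ^ 2) := by
            refine Nat.mul_le_mul_left _ ?_
            nlinarith
        _ = _ := by ring
    have h3 : (j + 1) ^ 2 * (Nat.centralBinom (j + 1) ^ 2 * (2 * (j + 1) + 1)) ≤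
        (j + 1) ^ 2 * 16 ^ (j + 1) := by
      calc _ = ((j + 1) * Nat.centralBinom (j + 1)) ^ 2 * (2 * (j + 1) + 1) := by ring
        _ ≤ _ := h2
    exact Nat.le_of_mul_le_mul_left h3 (by positivity)

/-- The proportion in the Littlewood Offord bound tends to zero. -/
theorem exists_small_prop (δ : ℝ) (hδ : 0 < δ) :
    ∃ j : ℕ, 3 * (Nat.centralBinom j : ℝ) / 4 ^ j ≤ δ := by
  obtain ⟨j, hj⟩ := exists_nat_gt (9 / δ ^ 2)
  refine ⟨j, ?_⟩
  have h1 : (Nat.centralBinom j : ℝ) ^ 2 * (2 * j + 1) ≤ 16 ^ j := by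
    exact_mod_cast centralBinom_sq j
  have hpos : (0 : ℝ) < 4 ^ j := by positivity
  rw [div_le_iff₀ hpos]
  apply le_of_sq_le_sq _ (by positivity)
  have h2 : (4 : ℝ) ^ j * 4 ^ j = 16 ^ j := by
    rw [← mul_pow]
    norm_num
  have h3 : 9 < j * δ ^ 2 := by
    rwa [div_lt_iff₀ (by positivity)] at hj
  have h4 : 9 * (Nat.centralBinom j : ℝ) ^ 2 ≤ δ ^ 2 * 16 ^ j := by
    have h5 : (0 : ℝ) ≤ (Nat.centralBinom j : ℝ) ^ 2 := by positivity
    nlinarith
  calc (3 * (Nat.centralBinom j : ℝ)) ^ 2 = 9 * (Nat.centralBinom j : ℝ) ^ 2 := by ring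
    _ ≤ δ ^ 2 * 16 ^ j := h4
    _ = (δ * 4 ^ j) ^ 2 := by rw [← h2]; ring

end DQ
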