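import Pool.Agent.helper62.DQ.Det

/-!
# Probabilities of the exceptional events
-/

set_option autoImplicit false
set_option linter.unusedSectionVars false

namespace DQ

open Matrix Finset DS Filter Topology

/-- The total number of alternating matrices. -/
noncomputable def al (n : ℕ) : ℝ := ((altSet (Fin n)).card : ℝ)

theorem al_pos (n : ℕ) : 0 < al n := by
  rw [al]
  have : 0 < (altSet (Fin n)).card := by
    rw [card_alt_eq]
    exact Nat.card_pos
  exact_mod_cast this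

/-- The value of a sign pattern. -/
noncomputable def bv {n : ℕ} (c : Fin n → Fin 3) : Fin n → ℝ := fun i => ((c i : ℕ) : ℝ) - 1

theorem exists_bv {n : ℕ} (b : Fin n → ℝ) (hb : ∀ i, Tri (b i)) : ∃ c : Fin n → Fin 3, bv c = b := by
  have h : ∀ i, ∃ c : Fin 3, ((c : ℕ) : ℝ) - 1 = b i := by
    intro i
    rcases hb i with h | h | h
    · exact ⟨0, by rw [h]; norm_num⟩
    · exact ⟨1, by rw [h]; norm_num⟩
    · exact ⟨2, by rw [h]; norm_num⟩
  choose c hc using h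
  exact ⟨c, funext hc⟩

/-- First exceptional event. -/
def Bad1 (ε : ℝ) (j n : ℕ) (A : Matrix (Fin n) (Fin n) F) : Prop :=
  ∃ T I : Finset (Fin n), ∃ b : Fin n → ℝ, (1 / 2 + ε) * n < T.card ∧ I ⊆ T ∧
    I.card + T.card ≤ n ∧ (∀ i, Tri (b i)) ∧ EvD T I b j A

theorem Bad1_bound {ε : ℝ} (hε : 0 < ε) {j : ℕ} (hj : eta j ≤ (1 / 24 : ℝ) ^ (1 / (2 * ε)))
    (n : ℕ) : (cn (Bad1 ε j n) : ℝ) ≤ (1 / 2) ^ n * al n := by
  classical
  let X : Finset ((Finset (Fin n) × Finset (Fin n)) × (Fin n → Fin 3)) :=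
    tS fun x => (1 / 2 + ε) * n < (x.1.1.card : ℝ) ∧ x.1.2 ⊆ x.1.1 ∧
      x.1.2.card + x.1.1.card ≤ n
  have h1 : cn (Bad1 ε j n) ≤ ∑ x ∈ X, cn (EvD x.1.1 x.1.2 (bv x.2) j) := by
    refine le_trans (cn_mono fun A _ hA => ?_) (cn_union X fun x => EvD x.1.1 x.1.2 (bv x.2) j)
    obtain ⟨T, I, b, h1, h2, h3, h4, h5⟩ := hA
    obtain ⟨c, rfl⟩ := exists_bv b h4
    exact ⟨((T, I), c), (mem_tS _ _).2 ⟨h1, h2, h3⟩, h5⟩
  have hbase0 : (0 : ℝ) ≤ (1 / 24 : ℝ) ^ (1 / (2 * ε)) := by positivity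
  have h2 : ∀ x ∈ X, (cn (EvD x.1.1 x.1.2 (bv x.2) j) : ℝ) ≤ (1 / 24) ^ n * al n := by
    intro x hx
    rw [mem_tS] at hx
    obtain ⟨hx1, hx2, hx3⟩ := hx
    refine (EvD_bound x.1.1 x.1.2 hx2 (bv x.2) j).trans ?_
    refine mul_le_mul_of_nonneg_right ?_ (al_pos n).le
    have hle : x.1.2.card ≤ x.1.1.card := Finset.card_le_card hx2
    have hd : 2 * ε * n ≤ ((x.1.1.card - x.1.2.card : ℕ) : ℝ) := by
      rw [Nat.cast_sub hle]
      have : (x.1.2.card : ℝ) + x.1.1.card ≤ n := by exact_mod_cast hx3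
      nlinarith
    calc eta j ^ (x.1.1.card - x.1.2.card)
        ≤ ((1 / 24 : ℝ) ^ (1 / (2 * ε))) ^ (x.1.1.card - x.1.2.card) :=
          pow_le_pow_left₀ (eta_nonneg j) hj _
      _ = (1 / 24 : ℝ) ^ (1 / (2 * ε) * ((x.1.1.card - x.1.2.card : ℕ) : ℝ)) := by
          rw [Real.rpow_mul (by norm_num), Real.rpow_natCast]
      _ ≤ (1 / 24 : ℝ) ^ (n : ℝ) := by
          refine Real.rpow_le_rpow_of_exponent_ge (by norm_num) (by norm_num) ?_
          rw [div_mul_eq_mul_div, one_mul, le_div_iff₀ (by positivity)]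
          linarith
      _ = (1 / 24) ^ n := Real.rpow_natCast _ _
  have h3 : (X.card : ℝ) ≤ 12 ^ n := by
    have h4 : X.card ≤ 12 ^ n := by
      refine (Finset.card_le_univ X).trans (le_of_eq ?_)
      rw [Fintype.card_prod, Fintype.card_prod, Fintype.card_finset, Fintype.card_fun,
        Fintype.card_fin, Fintype.card_fin, ← mul_pow, ← mul_pow]
      norm_num
    exact_mod_cast h4
  calc (cn (Bad1 ε j n) : ℝ) ≤ ∑ x ∈ X, (cn (EvD x.1.1 x.1.2 (bv x.2) j) : ℝ) := by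
        exact_mod_cast h1
    _ ≤ X.card • ((1 / 24) ^ n * al n) := Finset.sum_le_card_nsmul _ _ _ h2
    _ = X.card * ((1 / 24) ^ n * al n) := nsmul_eq_mul _ _
    _ ≤ 12 ^ n * ((1 / 24) ^ n * al n) :=
        mul_le_mul_of_nonneg_right h3 (mul_nonneg (by positivity) (al_pos n).le)
    _ = (1 / 2) ^ n * al n := by
        rw [← mul_assoc, ← mul_pow]
        norm_num

/-- Second exceptional event. -/
def Bad2 (ε : ℝ) (j n : ℕ) (A : Matrix (Fin n) (Fin n) F) : Prop :=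
  ∃ (T : Finset (Fin n)) (w : ℕ), (∃ v, v ∉ T) ∧ n ≤ T.card + 4 * j ∧
    (1 / 2 + ε) * n < w ∧ EvS T w A

theorem EvS_anti {n : ℕ} {T : Finset (Fin n)} {w w' : ℕ} (h : w ≤ w')
    {A : Matrix (Fin n) (Fin n) F} (hA : EvS T w' A) : EvS T w A := by
  obtain ⟨q, h1, h2, h3⟩ := hA
  exact ⟨q, h1, h2, h.trans h3⟩

theorem card_large (n K : ℕ) : (tS fun T : Finset (Fin n) => n ≤ T.card + K).card ≤
    (K + 1) * (n + 1) ^ K := by
  classical
  have h1 : (tS fun T : Finset (Fin n) => n ≤ T.card + K).image (fun T => Tᶜ) ⊆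
      (range (K + 1)).biUnion fun k => powersetCard k (univ : Finset (Fin n)) := by
    intro S hS
    rw [mem_image] at hS
    obtain ⟨T, hT, rfl⟩ := hS
    rw [mem_tS] at hT
    rw [mem_biUnion]
    refine ⟨(Tᶜ).card, ?_, ?_⟩
    · rw [mem_range, Finset.card_compl, Fintype.card_fin]
      omega
    · rw [mem_powersetCard]
      exact ⟨subset_univ _, rfl⟩
  rw [← Finset.card_image_of_injective _ (compl_injective : Function.Injective
    (fun T : Finset (Fin n) => Tᶜ))]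
  refine (Finset.card_le_card h1).trans (Finset.card_biUnion_le.trans ?_)
  have h2 : ∀ k ∈ range (K + 1), (powersetCard k (univ : Finset (Fin n))).card ≤ (n + 1) ^ K := by
    intro k hk
    rw [mem_range] at hk
    rw [card_powersetCard, Finset.card_univ, Fintype.card_fin]
    refine (Nat.choose_le_pow n k).trans ?_
    refine (Nat.pow_le_pow_left (Nat.le_succ n) k).trans ?_
    exact Nat.pow_le_pow_right (Nat.succ_pos n) (by omega)
  refine (Finset.sum_le_card_nsmul _ _ _ h2).trans ?_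
  rw [card_range, smul_eq_mul]

/-- The rate in the Chernoff bound. -/
noncomputable def rate (ε : ℝ) : ℝ := (1 + ε / 2) / (1 + ε) ^ (1 / 2 + ε)

theorem rate_lt_one {ε : ℝ} (hε : 0 < ε) : rate ε < 1 := by
  have h1 : (0 : ℝ) < 1 + ε := by linarith
  rw [rate, div_lt_one (by positivity)]
  have h2 : ε / (1 + ε) ≤ Real.log (1 + ε) := by
    have h3 := Real.one_sub_inv_le_log_of_pos h1
    have h4 : 1 - (1 + ε)⁻¹ = ε / (1 + ε) := by
      field_simp
      ring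
    rwa [h4] at h3
  have h5 : ((1 + ε) ^ (1 / 2 + ε) : ℝ) = (1 + ε) ^ (1 / 2 : ℝ) * Real.exp (ε * Real.log (1 + ε)) := by
    rw [Real.rpow_add h1, Real.rpow_def_of_pos h1 ε, mul_comm ε]
  have h6 : 1 + ε * Real.log (1 + ε) ≤ Real.exp (ε * Real.log (1 + ε)) := by
    rw [add_comm]
    exact Real.add_one_le_exp _
  have h7 : 0 < ((1 + ε) ^ (1 / 2 : ℝ) : ℝ) := by positivity
  have h8 : ((1 + ε) ^ (1 / 2 : ℝ) : ℝ) ^ 2 = 1 + ε := by
    rw [← Real.rpow_natCast, ← Real.rpow_mul h1.le]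
    norm_num
  have h9 : 1 + ε ^ 2 / (1 + ε) ≤ Real.exp (ε * Real.log (1 + ε)) := by
    refine le_trans ?_ h6
    have : ε * (ε / (1 + ε)) ≤ ε * Real.log (1 + ε) := mul_le_mul_of_nonneg_left h2 hε.le
    have e : ε * (ε / (1 + ε)) = ε ^ 2 / (1 + ε) := by ring
    linarith
  rw [h5]
  have h10 : (1 + ε / 2) < ((1 + ε) ^ (1 / 2 : ℝ) : ℝ) * (1 + ε ^ 2 / (1 + ε)) := by
    have hpos : 0 ≤ ((1 + ε) ^ (1 / 2 : ℝ) : ℝ) * (1 + ε ^ 2 / (1 + ε)) := by positivity
    refine lt_of_pow_lt_pow_left₀ 2 hpos ?_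
    rw [mul_pow, h8]
    have h11 : (1 + ε) * (1 + ε ^ 2 / (1 + ε)) ^ 2 =
        (1 + ε) + 2 * ε ^ 2 + ε ^ 4 / (1 + ε) := by
      field_simp
      ring
    rw [h11]
    have : 0 < ε ^ 4 / (1 + ε) := by positivity
    nlinarith
  exact lt_of_lt_of_le h10 (mul_le_mul_of_nonneg_left h9 h7.le)

theorem Bad2_bound {ε : ℝ} (hε : 0 < ε) (j n : ℕ) : (cn (Bad2 ε j n) : ℝ) ≤
    ((4 * j + 1) * (n + 1) ^ (4 * j)) * (3 * 2 ^ (4 * j) + 1) ^ (4 * j) * rate ε ^ n * al n := by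
  classical
  set w₀ := ⌊(1 / 2 + ε) * n⌋₊ + 1 with hw₀
  have hnn : (0 : ℝ) ≤ (1 / 2 + ε) * n := by positivity
  let X : Finset (Finset (Fin n)) := (tS fun T => n ≤ T.card + 4 * j).filter fun T => ∃ v, v ∉ T
  have h1 : cn (Bad2 ε j n) ≤ ∑ T ∈ X, cn (EvS T w₀) := by
    refine le_trans (cn_mono fun A _ hA => ?_) (cn_union X fun T => EvS T w₀)
    obtain ⟨T, w, h1, h2, h3, h4⟩ := hA
    refine ⟨T, mem_filter.2 ⟨(mem_tS _ _).2 h2, h1⟩, EvS_anti ?_ h4⟩
    have : ⌊(1 / 2 + ε) * n⌋₊ < w := (Nat.floor_lt hnn).2 h3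
    omega
  have ht : (1 : ℝ) ≤ 1 + ε := by linarith
  have htw : (0 : ℝ) < (1 + ε) ^ w₀ := by positivity
  have hx : ((1 + ε) ^ (1 / 2 + ε) : ℝ) ^ n ≤ (1 + ε) ^ w₀ := by
    rw [← Real.rpow_natCast ((1 + ε) ^ (1 / 2 + ε)) n, ← Real.rpow_mul (by linarith),
      ← Real.rpow_natCast (1 + ε) w₀]
    refine Real.rpow_le_rpow_of_exponent_le ht ?_
    have := Nat.lt_floor_add_one ((1 / 2 + ε) * (n : ℝ))
    rw [hw₀]
    push_cast
    exact this.le
  have h2 : ∀ T ∈ X, (cn (EvS T w₀) : ℝ) ≤ (3 * 2 ^ (4 * j) + 1) ^ (4 * j) * rate ε ^ n * al n := by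
    intro T hT
    rw [mem_filter, mem_tS] at hT
    obtain ⟨hT1, hT2⟩ := hT
    have h3 := EvS_bound T hT2 w₀ (1 + ε) ht
    have hk : Fintype.card {v // v ∉ T} ≤ 4 * j := by
      rw [Fintype.card_subtype_compl, Fintype.card_coe, Fintype.card_fin]
      omega
    have e2 : (1 + (1 + ε)) / 2 = 1 + ε / 2 := by ring
    rw [e2] at h3
    have h4 : ((3 : ℝ) * 2 ^ Fintype.card {v // v ∉ T} + 1) ^ Fintype.card {v // v ∉ T} ≤
        (3 * 2 ^ (4 * j) + 1) ^ (4 * j) := by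
      have h5 : (3 : ℝ) * 2 ^ Fintype.card {v // v ∉ T} + 1 ≤ 3 * 2 ^ (4 * j) + 1 := by
        have := pow_le_pow_right₀ (by norm_num : (1 : ℝ) ≤ 2) hk
        linarith
      refine (pow_le_pow_left₀ (by positivity) h5 _).trans ?_
      refine pow_le_pow_right₀ ?_ hk
      have : (0 : ℝ) < 2 ^ (4 * j) := by positivity
      linarith
    have h6 : ((1 : ℝ) + ε / 2) ^ T.card ≤ (1 + ε / 2) ^ n := by
      refine pow_le_pow_right₀ (by linarith) ?_
      have := Finset.card_le_univ T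
      rwa [Fintype.card_fin] at this
    have h7 : (cn (EvS T w₀) : ℝ) * ((1 + ε) ^ (1 / 2 + ε) : ℝ) ^ n ≤
        (3 * 2 ^ (4 * j) + 1) ^ (4 * j) * ((1 + ε / 2) ^ n * al n) := by
      calc _ ≤ (cn (EvS T w₀) : ℝ) * (1 + ε) ^ w₀ :=
            mul_le_mul_of_nonneg_left hx (Nat.cast_nonneg _)
        _ ≤ _ := h3
        _ ≤ _ := by
            refine mul_le_mul h4 ?_ ?_ (by positivity)
            · exact mul_le_mul_of_nonneg_right h6 (al_pos n).le
            · exact mul_nonneg (by positivity) (al_pos n).le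
    have hy : (0 : ℝ) < ((1 + ε) ^ (1 / 2 + ε) : ℝ) ^ n := by positivity
    rw [← le_div_iff₀ hy] at h7
    refine h7.trans (le_of_eq ?_)
    rw [rate, div_pow]
    ring
  have h3 : (X.card : ℝ) ≤ (4 * j + 1) * (n + 1) ^ (4 * j) := by
    have h4 : X.card ≤ (4 * j + 1) * (n + 1) ^ (4 * j) :=
      (Finset.card_filter_le _ _).trans (card_large n (4 * j))
    exact_mod_cast h4
  have hr : 0 ≤ rate ε := by
    rw [rate]
    positivity
  calc (cn (Bad2 ε j n) : ℝ) ≤ ∑ T ∈ X, (cn (EvS T w₀) : ℝ) := by exact_mod_cast h1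
    _ ≤ X.card • ((3 * 2 ^ (4 * j) + 1) ^ (4 * j) * rate ε ^ n * al n) :=
        Finset.sum_le_card_nsmul _ _ _ h2
    _ = X.card * ((3 * 2 ^ (4 * j) + 1) ^ (4 * j) * rate ε ^ n * al n) := nsmul_eq_mul _ _
    _ ≤ ((4 * j + 1) * (n + 1) ^ (4 * j)) *
        ((3 * 2 ^ (4 * j) + 1) ^ (4 * j) * rate ε ^ n * al n) :=
        mul_le_mul_of_nonneg_right h3
          (mul_nonneg (mul_nonneg (by positivity) (pow_nonneg hr n)) (al_pos n).le)
    _ = _ := by ring

/-- Third exceptional event. -/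
def Bad3 (n : ℕ) (A : Matrix (Fin n) (Fin n) F) : Prop :=
  ∃ k : ℕ, 1 ≤ k ∧ k ≤ n ∧ 10 * k * (Nat.log 2 n + 1) ≤ n ∧
    ∃ (u : Fin (10 * k * (Nat.log 2 n + 1)) → Fin n)
      (σ : Fin (10 * k * (Nat.log 2 n + 1)) → Fin k → Fin n),
      EvP (10 * k * (Nat.log 2 n + 1)) k u σ A

theorem pow_count {n k m L : ℕ} (hn : n ≤ 2 ^ L) (hL : 1 ≤ L) (hk : 1 ≤ k)
    (hm : m = 10 * k * L) (hmn : m ≤ n) :
    n ^ m * (n ^ k) ^ m * (2 * Fintype.card (Kp m) + 1) ^ (m * k) * n ^ 2 ≤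
      2 ^ Fintype.card (Kp m) := by
  have hK := card_Kp m
  have hm1 : 10 ≤ m := by
    rw [hm]
    nlinarith [Nat.mul_le_mul hk hL]
  have h1 : 2 * Fintype.card (Kp m) + 1 ≤ n ^ 2 := by
    rw [hK]
    have : m * (m - 1) + 1 ≤ m * m := by
      obtain ⟨c, rfl⟩ : ∃ c, m = c + 1 := ⟨m - 1, by omega⟩
      rw [Nat.add_sub_cancel]
      nlinarith
    nlinarith
  calc n ^ m * (n ^ k) ^ m * (2 * Fintype.card (Kp m) + 1) ^ (m * k) * n ^ 2
      ≤ n ^ m * (n ^ k) ^ m * (n ^ 2) ^ (m * k) * n ^ 2 :=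
        Nat.mul_le_mul_right _ (Nat.mul_le_mul_left _ (Nat.pow_le_pow_left h1 _))
    _ = n ^ (m + k * m + 2 * (m * k) + 2) := by
        rw [← pow_mul, ← pow_mul, ← pow_add, ← pow_add, ← pow_add]
    _ ≤ (2 ^ L) ^ (m + k * m + 2 * (m * k) + 2) := Nat.pow_le_pow_left hn _
    _ = 2 ^ (L * (m + k * m + 2 * (m * k) + 2)) := by rw [← pow_mul]
    _ ≤ 2 ^ Fintype.card (Kp m) := by
        refine Nat.pow_le_pow_right (by norm_num) ?_
        have h2 : 2 * (L * (m + k * m + 2 * (m * k) + 2)) ≤ 2 * Fintype.card (Kp m) := by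
          rw [hK]
          have h3 : m * (m - 1) + m = m * m := by
            obtain ⟨c, rfl⟩ : ∃ c, m = c + 1 := ⟨m - 1, by omega⟩
            rw [Nat.add_sub_cancel]
            ring
          have h4 : m * m = 10 * (k * L * m) := by
            nth_rewrite 1 [hm]
            ring
          have h5 : L * m ≤ k * L * m := by nlinarith [Nat.mul_le_mul hk (le_refl (L * m))]
          have h6 : m ≤ L * m := by nlinarith
          have h7 : 10 * L ≤ L * m := by nlinarith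
          nlinarith
        omega

theorem Bad3_bound (n : ℕ) : (cn (Bad3 n) : ℝ) * n ≤ al n := by
  classical
  rcases Nat.eq_zero_or_pos n with rfl | hn
  · rw [Nat.cast_zero, mul_zero]
    exact (al_pos 0).le
  have hnL : n ≤ 2 ^ (Nat.log 2 n + 1) := (Nat.lt_pow_succ_log_self (by norm_num) n).le
  set L := Nat.log 2 n + 1 with hL
  let X : Finset ℕ := (Finset.Icc 1 n).filter fun k => 10 * k * L ≤ n
  have h1 : cn (Bad3 n) ≤ ∑ k ∈ X, cn (fun A : Matrix (Fin n) (Fin n) F =>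
      ∃ x ∈ (univ : Finset ((Fin (10 * k * L) → Fin n) × (Fin (10 * k * L) → Fin k → Fin n))),
        EvP (10 * k * L) k x.1 x.2 A) := by
    refine le_trans (cn_mono fun A _ hA => ?_) (cn_union X _)
    obtain ⟨k, h1, h2, h3, u, σ, h4⟩ := hA
    exact ⟨k, mem_filter.2 ⟨mem_Icc.2 ⟨h1, h2⟩, h3⟩, (u, σ), mem_univ _, h4⟩
  have h2 : ∀ k ∈ X, (cn (fun A : Matrix (Fin n) (Fin n) F =>
      ∃ x ∈ (univ : Finset ((Fin (10 * k * L) → Fin n) × (Fin (10 * k * L) → Fin k → Fin n))),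
        EvP (10 * k * L) k x.1 x.2 A)) * n ^ 2 ≤ (altSet (Fin n)).card := by
    intro k hk
    rw [mem_filter, mem_Icc] at hk
    obtain ⟨⟨hk1, hk2⟩, hk3⟩ := hk
    obtain ⟨m, hm⟩ : ∃ m, m = 10 * k * L := ⟨_, rfl⟩
    rw [← hm] at hk3 ⊢
    have hpc := pow_count hnL (by omega) hk1 hm hk3
    have hpos : 0 < 2 ^ Fintype.card (Kp m) := by positivity
    have h3 := cn_union (univ : Finset ((Fin m → Fin n) × (Fin m → Fin k → Fin n)))
      (fun x => EvP m k x.1 x.2)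
    have h4 : (∑ x : (Fin m → Fin n) × (Fin m → Fin k → Fin n), cn (EvP m k x.1 x.2)) *
        2 ^ Fintype.card (Kp m) ≤
        (n ^ m * (n ^ k) ^ m) * ((2 * Fintype.card (Kp m) + 1) ^ (m * k) *
          (altSet (Fin n)).card) := by
      rw [Finset.sum_mul]
      refine (Finset.sum_le_card_nsmul _ _ _ fun x _ => EvP_bound m k x.1 x.2).trans ?_
      rw [smul_eq_mul, Finset.card_univ, Fintype.card_prod, Fintype.card_fun, Fintype.card_fun,
        Fintype.card_fun, Fintype.card_fin, Fintype.card_fin, Fintype.card_fin]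
    refine Nat.le_of_mul_le_mul_right ?_ hpos
    calc _ ≤ ((∑ x : (Fin m → Fin n) × (Fin m → Fin k → Fin n), cn (EvP m k x.1 x.2)) *
          n ^ 2) * 2 ^ Fintype.card (Kp m) :=
          Nat.mul_le_mul_right _ (Nat.mul_le_mul_right _ h3)
      _ = ((∑ x : (Fin m → Fin n) × (Fin m → Fin k → Fin n), cn (EvP m k x.1 x.2)) *
          2 ^ Fintype.card (Kp m)) * n ^ 2 := by ring
      _ ≤ ((n ^ m * (n ^ k) ^ m) * ((2 * Fintype.card (Kp m) + 1) ^ (m * k) *
          (altSet (Fin n)).card)) * n ^ 2 := Nat.mul_le_mul_right _ h4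
      _ = (n ^ m * (n ^ k) ^ m * (2 * Fintype.card (Kp m) + 1) ^ (m * k) * n ^ 2) *
          (altSet (Fin n)).card := by ring
      _ ≤ 2 ^ Fintype.card (Kp m) * (altSet (Fin n)).card := Nat.mul_le_mul_right _ hpc
      _ = _ := by ring
  have h3 : cn (Bad3 n) * n ^ 2 ≤ n * (altSet (Fin n)).card := by
    calc cn (Bad3 n) * n ^ 2 ≤ (∑ k ∈ X, cn (fun A : Matrix (Fin n) (Fin n) F =>
        ∃ x ∈ (univ : Finset ((Fin (10 * k * L) → Fin n) × (Fin (10 * k * L) → Fin k → Fin n))),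
        EvP (10 * k * L) k x.1 x.2 A)) * n ^ 2 := Nat.mul_le_mul_right _ h1
      _ ≤ X.card * (altSet (Fin n)).card := by
          rw [Finset.sum_mul]
          refine (Finset.sum_le_card_nsmul _ _ _ h2).trans (le_of_eq ?_)
          rw [smul_eq_mul]
      _ ≤ n * (altSet (Fin n)).card := by
          refine Nat.mul_le_mul_right _ ?_
          refine (Finset.card_filter_le _ _).trans ?_
          rw [Nat.card_Icc]
          omega
  have h4 : cn (Bad3 n) * n ≤ (altSet (Fin n)).card := by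
    refine Nat.le_of_mul_le_mul_right ?_ hn
    calc cn (Bad3 n) * n * n = cn (Bad3 n) * n ^ 2 := by ring
      _ ≤ n * (altSet (Fin n)).card := h3
      _ = _ := by ring
  rw [al]
  exact_mod_cast h4

end DQ
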